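import Mathlib

/-!
# Locally convex Lie groups

Bastiani (Keller `C^∞_c`) smoothness, manifolds modelled on locally convex spaces, locally convex
Lie groups, Banach-Lie groups, epimorphisms.
-/

set_option autoImplicit false

namespace Pool.Agent.Lib.MP_862e0f_al

open Filter Topology Set

universe u v w x

/-- `w` is the derivative of `f` at `x` in the direction `v`. -/
def HasDirDeriv {E : Type u} {F : Type v} [AddCommGroup E] [Module ℝ E] [AddCommGroup F]
    [Module ℝ F] [TopologicalSpace F] (f : E → F) (x v : E) (w : F) : Prop :=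
  Tendsto (fun t : ℝ => t⁻¹ • (f (x + t • v) - f x)) (𝓝[≠] 0) (𝓝 w)

/-- `f` is of class `C^k` on the open set `U` in the sense of Bastiani: for `k = 0` it is
continuous on `U`; it is `C^{k+1}` if it is continuous on `U`, the directional derivatives
`df (x, v)` exist for all `x ∈ U` and all `v`, and `df` is `C^k` on `U × E`. -/
def BastianiCk : ℕ → ∀ (E : Type u) (F : Type v) [AddCommGroup E] [Module ℝ E]
    [TopologicalSpace E] [AddCommGroup F] [Module ℝ F] [TopologicalSpace F],
    (E → F) → Set E → Prop
  | 0 => fun _ _ _ _ _ _ _ _ f U => ContinuousOn f U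
  | k + 1 => fun E F _ _ _ _ _ _ f U => ContinuousOn f U ∧ ∃ df : E × E → F,
      (∀ x ∈ U, ∀ v : E, HasDirDeriv f x v (df (x, v))) ∧
        BastianiCk k (E × E) F df (U ×ˢ univ)

/-- `f` is smooth on the open set `U` in the sense of Bastiani. -/
def BastianiSmooth {E : Type u} {F : Type v} [AddCommGroup E] [Module ℝ E]
    [TopologicalSpace E] [AddCommGroup F] [Module ℝ F] [TopologicalSpace F] (f : E → F)
    (U : Set E) : Prop :=
  ∀ k : ℕ, BastianiCk k E F f U

/-- A map `f : M → N` between manifolds modelled on `E` and `F` is smooth: it is continuous and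
smooth in the charts. -/
def SmoothMap (E : Type*) [AddCommGroup E] [Module ℝ E] [TopologicalSpace E] {M : Type*}
    [TopologicalSpace M] [ChartedSpace E M] (F : Type*) [AddCommGroup F] [Module ℝ F]
    [TopologicalSpace F] {N : Type*} [TopologicalSpace N] [ChartedSpace F N] (f : M → N) : Prop :=
  Continuous f ∧ ∀ φ ∈ atlas E M, ∀ ψ ∈ atlas F N,
    BastianiSmooth (fun x => ψ (f (φ.symm x))) {x | x ∈ φ.target ∧ f (φ.symm x) ∈ ψ.source}

/-- The axioms of a Lie group `G` modelled on the topological vector space `E`: the chart changes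
are smooth, the multiplication `G × G → G` is smooth and the inversion is smooth. -/
structure IsLieGroup (E : Type*) [AddCommGroup E] [Module ℝ E] [TopologicalSpace E] (G : Type*)
    [Group G] [TopologicalSpace G] [ChartedSpace E G] : Prop where
  chart_change : ∀ φ ∈ atlas E G, ∀ ψ ∈ atlas E G,
    BastianiSmooth (fun x => ψ (φ.symm x)) {x | x ∈ φ.target ∧ φ.symm x ∈ ψ.source}
  continuous_mul : Continuous fun p : G × G => p.1 * p.2
  smooth_mul : ∀ φ₁ ∈ atlas E G, ∀ φ₂ ∈ atlas E G, ∀ ψ ∈ atlas E G,
    BastianiSmooth (fun z : E × E => ψ (φ₁.symm z.1 * φ₂.symm z.2))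
      {z | (z.1 ∈ φ₁.target ∧ z.2 ∈ φ₂.target) ∧ φ₁.symm z.1 * φ₂.symm z.2 ∈ ψ.source}
  smooth_inv : SmoothMap E E fun g : G => g⁻¹

/-- A locally convex Lie group: a Hausdorff group with a smooth manifold structure modelled on a
Hausdorff locally convex real vector space such that multiplication and inversion are smooth. -/
structure LieGrp : Type (max (u + 1) (v + 1)) where
  /-- the underlying group -/
  carrier : Type u
  /-- the model space -/
  model : Type v
  [group : Group carrier]
  [top : TopologicalSpace carrier]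
  [t2 : T2Space carrier]
  [addCommGroup : AddCommGroup model]
  [module : Module ℝ model]
  [modelTop : TopologicalSpace model]
  [topAddGroup : IsTopologicalAddGroup model]
  [contSMul : ContinuousSMul ℝ model]
  [locConvex : LocallyConvexSpace ℝ model]
  [modelT2 : T2Space model]
  [charted : ChartedSpace model carrier]
  lie : IsLieGroup model carrier

attribute [instance] LieGrp.group LieGrp.top LieGrp.t2 LieGrp.addCommGroup LieGrp.module
  LieGrp.modelTop LieGrp.topAddGroup LieGrp.contSMul LieGrp.locConvex LieGrp.modelT2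
  LieGrp.charted

/-- `G` is a Banach-Lie group: its model space is (isomorphic to) a Banach space. -/
def LieGrp.IsBanach (G : LieGrp.{u, v}) : Prop :=
  ∃ (X : Type v) (_ : NormedAddCommGroup X) (_ : NormedSpace ℝ X) (_ : CompleteSpace X),
    Nonempty (G.model ≃L[ℝ] X)

/-- Morphisms of locally convex Lie groups: smooth homomorphisms. -/
structure IsMorphism (G : LieGrp.{u, v}) (H : LieGrp.{w, x}) (f : G.carrier →* H.carrier) :
    Prop where
  smooth : SmoothMap G.model H.model f

/-- `f` is an epimorphism with respect to the class `C` of locally convex Lie groups: morphisms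
`g₁, g₂ : H → K` with `K` in `C` and `g₁ ∘ f = g₂ ∘ f` are equal. -/
def IsEpi (C : LieGrp.{w, x} → Prop) {G H : LieGrp.{u, v}} (f : G.carrier →* H.carrier) : Prop :=
  ∀ K : LieGrp.{w, x}, C K → ∀ g₁ g₂ : H.carrier →* K.carrier, IsMorphism H K g₁ →
    IsMorphism H K g₂ → g₁.comp f = g₂.comp f → g₁ = g₂

end Pool.Agent.Lib.MP_862e0f_al
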