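import Pool.Agent.Lib.MP_862e0f_al.Taylor

/-!
# One-parameter groups with the same velocity coincide
-/

namespace Pool.Agent.MP_862e0f

open Filter Topology Set

section Curve

variable (K : LieGrp)

/-- The domain of multiplication in charts. -/
def mulDom (e₁ e₂ e₃ : OpenPartialHomeomorph K.carrier K.model) : Set (K.model × K.model) :=
  {p | p.1 ∈ e₁.target ∧ p.2 ∈ e₂.target ∧ e₁.symm p.1 * e₂.symm p.2 ∈ e₃.source}

theorem isOpen_mulDom (e₁ e₂ e₃ : OpenPartialHomeomorph K.carrier K.model) :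
    IsOpen (mulDom K e₁ e₂ e₃) := by
  have h1 : ContinuousOn (fun p : K.model × K.model => e₁.symm p.1 * e₂.symm p.2)
      (e₁.target ×ˢ e₂.target) := by
    apply ContinuousOn.mul
    · exact e₁.continuousOn_symm.comp continuousOn_fst (fun p hp => hp.1)
    · exact e₂.continuousOn_symm.comp continuousOn_snd (fun p hp => hp.2)
  have h2 := h1.isOpen_inter_preimage (e₁.open_target.prod e₂.open_target) e₃.open_source
  have h3 : mulDom K e₁ e₂ e₃ = (e₁.target ×ˢ e₂.target) ∩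
      (fun p : K.model × K.model => e₁.symm p.1 * e₂.symm p.2) ⁻¹' e₃.source := by
    ext p
    constructor
    · rintro ⟨a, b, c⟩
      exact ⟨⟨a, b⟩, c⟩
    · rintro ⟨⟨a, b⟩, c⟩
      exact ⟨a, b, c⟩
  rw [h3]
  exact h2

variable {K}

theorem exists_mul_deriv {e₁ e₂ e₃ : OpenPartialHomeomorph K.carrier K.model}
    (h₁ : e₁ ∈ atlas K.model K.carrier) (h₂ : e₂ ∈ atlas K.model K.carrier)
    (h₃ : e₃ ∈ atlas K.model K.carrier) :
    ∃ dP, HasD (fun p : K.model × K.model => e₃ (e₁.symm p.1 * e₂.symm p.2))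
      (mulDom K e₁ e₂ e₃) dP ∧ ContinuousOn dP (mulDom K e₁ e₂ e₃ ×ˢ univ) := by
  obtain ⟨dP, h, hc⟩ := (K.smooth_mul e₁ h₁ e₂ h₂ e₃ h₃ 1).exists_deriv
  exact ⟨dP, h, hc.continuousOn⟩

/-- Two pairs of curves which agree to first order have products agreeing to first order. -/
theorem mul_agree {e₁ e₂ e₃ : OpenPartialHomeomorph K.carrier K.model}
    (h₁ : e₁ ∈ atlas K.model K.carrier) (h₂ : e₂ ∈ atlas K.model K.carrier)
    (h₃ : e₃ ∈ atlas K.model K.carrier) {x y : K.carrier} (hx : x ∈ e₁.source)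
    (hy : y ∈ e₂.source) (hxy : x * y ∈ e₃.source) {a a' b b' : ℝ → K.carrier}
    (ha : Tendsto a (𝓝[≠] 0) (𝓝 x)) (ha' : Tendsto a' (𝓝[≠] 0) (𝓝 x))
    (hb : Tendsto b (𝓝[≠] 0) (𝓝 y)) (hb' : Tendsto b' (𝓝[≠] 0) (𝓝 y))
    (haa : Tendsto (fun s : ℝ => s⁻¹ • (e₁ (a s) - e₁ (a' s))) (𝓝[≠] 0) (𝓝 0))
    (hbb : Tendsto (fun s : ℝ => s⁻¹ • (e₂ (b s) - e₂ (b' s))) (𝓝[≠] 0) (𝓝 0)) :
    Tendsto (fun s : ℝ => s⁻¹ • (e₃ (a s * b s) - e₃ (a' s * b' s))) (𝓝[≠] 0) (𝓝 0) := by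
  obtain ⟨dP, hD, hDc⟩ := exists_mul_deriv h₁ h₂ h₃
  have hx₀ : (e₁ x, e₂ y) ∈ mulDom K e₁ e₂ e₃ := by
    refine ⟨e₁.map_source hx, e₂.map_source hy, ?_⟩
    show e₁.symm (e₁ x) * e₂.symm (e₂ y) ∈ e₃.source
    rw [e₁.left_inv hx, e₂.left_inv hy]
    exact hxy
  have c1 : Tendsto (fun s => e₁ (a s)) (𝓝[≠] 0) (𝓝 (e₁ x)) :=
    (e₁.continuousAt hx).tendsto.comp ha
  have c1' : Tendsto (fun s => e₁ (a' s)) (𝓝[≠] 0) (𝓝 (e₁ x)) :=
    (e₁.continuousAt hx).tendsto.comp ha'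
  have c2 : Tendsto (fun s => e₂ (b s)) (𝓝[≠] 0) (𝓝 (e₂ y)) :=
    (e₂.continuousAt hy).tendsto.comp hb
  have c2' : Tendsto (fun s => e₂ (b' s)) (𝓝[≠] 0) (𝓝 (e₂ y)) :=
    (e₂.continuousAt hy).tendsto.comp hb'
  have hagree : Tendsto (fun s : ℝ => s⁻¹ • ((e₁ (a s), e₂ (b s)) - (e₁ (a' s), e₂ (b' s))))
      (𝓝[≠] 0) (𝓝 0) := by
    have := haa.prodMk_nhds hbb
    exact this
  have h4 := hD.chain_zero hDc (isOpen_mulDom K e₁ e₂ e₃) hx₀ (c1.prodMk_nhds c2)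
    (c1'.prodMk_nhds c2') hagree
  refine h4.congr' ?_
  filter_upwards [ha (e₁.open_source.mem_nhds hx), ha' (e₁.open_source.mem_nhds hx),
    hb (e₂.open_source.mem_nhds hy), hb' (e₂.open_source.mem_nhds hy)] with s s1 s2 s3 s4
  show s⁻¹ • (e₃ (e₁.symm (e₁ (a s)) * e₂.symm (e₂ (b s))) -
    e₃ (e₁.symm (e₁ (a' s)) * e₂.symm (e₂ (b' s)))) = _
  rw [e₁.left_inv s1, e₁.left_inv s2, e₂.left_inv s3, e₂.left_inv s4]

/-- One-parameter groups with the same velocity coincide. -/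
theorem one_param_eq {γ₁ γ₂ : ℝ → K.carrier} (c₁ : Continuous γ₁) (c₂ : Continuous γ₂)
    (m₁ : ∀ s t, γ₁ (s + t) = γ₁ s * γ₁ t) (m₂ : ∀ s t, γ₂ (s + t) = γ₂ s * γ₂ t)
    (h : Tendsto (fun s : ℝ => s⁻¹ • (chartAt K.model (1 : K.carrier) (γ₁ s) -
      chartAt K.model (1 : K.carrier) (γ₂ s))) (𝓝[≠] 0) (𝓝 0)) (t : ℝ) : γ₁ t = γ₂ t := by
  set e := chartAt K.model (1 : K.carrier) with he
  have heA : e ∈ atlas K.model K.carrier := chart_mem_atlas _ _
  have he1 : (1 : K.carrier) ∈ e.source := mem_chart_source _ _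
  have z₁ : γ₁ 0 = 1 := by
    have := m₁ 0 0
    rw [add_zero] at this
    exact (left_eq_mul.1 this)
  have z₂ : γ₂ 0 = 1 := by
    have := m₂ 0 0
    rw [add_zero] at this
    exact (left_eq_mul.1 this)
  have t₁ : Tendsto γ₁ (𝓝[≠] 0) (𝓝 1) := by
    have := c₁.tendsto 0
    rw [z₁] at this
    exact this.mono_left nhdsWithin_le_nhds
  have t₂ : Tendsto γ₂ (𝓝[≠] 0) (𝓝 1) := by
    have := c₂.tendsto 0
    rw [z₂] at this
    exact this.mono_left nhdsWithin_le_nhds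
  have t₂' : Tendsto (fun s => (γ₂ s)⁻¹) (𝓝[≠] 0) (𝓝 1) := by
    have := t₂.inv
    rwa [inv_one] at this
  have zero' : ∀ (e' : OpenPartialHomeomorph K.carrier K.model) (c : ℝ → K.carrier),
      Tendsto (fun s : ℝ => s⁻¹ • (e' (c s) - e' (c s))) (𝓝[≠] 0) (𝓝 0) := by
    intro e' c
    simp only [sub_self, smul_zero]
    exact tendsto_const_nhds
  -- the quotient near `0`
  have hA : Tendsto (fun s : ℝ => s⁻¹ • (e (γ₁ s * (γ₂ s)⁻¹) - e 1)) (𝓝[≠] 0) (𝓝 0) := by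
    have h1 := mul_agree heA heA heA he1 he1 (by rwa [mul_one]) t₁ t₂ t₂' t₂' h (zero' e _)
    simpa only [mul_inv_cancel] using h1
  have tG : Tendsto (fun s => γ₁ s * (γ₂ s)⁻¹) (𝓝[≠] 0) (𝓝 1) := by
    have := t₁.mul t₂'
    rwa [mul_one] at this
  set F : ℝ → K.carrier := fun t => γ₁ t * (γ₂ t)⁻¹ with hF
  have cF : Continuous F := c₁.mul c₂.inv
  have hFadd : ∀ t s : ℝ, F (t + s) = γ₁ t * (γ₁ s * (γ₂ s)⁻¹) * (γ₂ t)⁻¹ := by
    intro t s
    simp only [hF]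
    rw [m₁, m₂, mul_inv_rev]
    group
  -- the quotient has zero velocity everywhere
  have hV : ∀ (t : ℝ) (e₃ : OpenPartialHomeomorph K.carrier K.model),
      e₃ ∈ atlas K.model K.carrier → F t ∈ e₃.source →
      Tendsto (fun s : ℝ => s⁻¹ • (e₃ (F (t + s)) - e₃ (F t))) (𝓝[≠] 0) (𝓝 0) := by
    intro t e₃ h₃ hs
    set ea := chartAt K.model (γ₁ t) with hea
    have h1 := mul_agree (chart_mem_atlas K.model (γ₁ t)) heA (chart_mem_atlas K.model (γ₁ t))
      (mem_chart_source _ _) he1 (x := γ₁ t) (y := 1)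
      (by rw [mul_one]; exact mem_chart_source _ _)
      (a := fun _ => γ₁ t) (a' := fun _ => γ₁ t) tendsto_const_nhds tendsto_const_nhds
      tG tendsto_const_nhds (zero' _ _) hA
    have t3 : Tendsto (fun s => γ₁ t * (γ₁ s * (γ₂ s)⁻¹)) (𝓝[≠] 0) (𝓝 (γ₁ t * 1)) :=
      tendsto_const_nhds.mul tG
    have h2 := mul_agree (chart_mem_atlas K.model (γ₁ t)) (chart_mem_atlas K.model ((γ₂ t)⁻¹)) h₃
      (x := γ₁ t * 1) (y := (γ₂ t)⁻¹) (by rw [mul_one]; exact mem_chart_source _ _)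
      (mem_chart_source _ _) (by rw [mul_one]; exact hs) t3 tendsto_const_nhds
      (b := fun _ => (γ₂ t)⁻¹) (b' := fun _ => (γ₂ t)⁻¹) tendsto_const_nhds tendsto_const_nhds
      h1 (zero' _ _)
    refine h2.congr ?_
    intro s
    rw [hFadd, mul_one]
  have hloc : IsLocallyConstant F := by
    rw [IsLocallyConstant.iff_eventually_eq]
    intro t₀
    set e₃ := chartAt K.model (F t₀) with he₃
    have hopen : IsOpen (F ⁻¹' e₃.source) := e₃.open_source.preimage cF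
    obtain ⟨ε, hε, hsub⟩ := Metric.isOpen_iff.1 hopen t₀ (mem_chart_source _ _)
    filter_upwards [Metric.ball_mem_nhds t₀ hε] with t ht
    by_cases htt : t = t₀
    · rw [htt]
    have hne : t - t₀ ≠ 0 := sub_ne_zero.2 htt
    have hin : ∀ τ ∈ Icc (0 : ℝ) 1, F (t₀ + τ * (t - t₀)) ∈ e₃.source := by
      intro τ hτ
      apply hsub
      rw [Metric.mem_ball, Real.dist_eq] at ht ⊢
      rw [add_sub_cancel_left, abs_mul, abs_of_nonneg hτ.1]
      exact (mul_le_of_le_one_left (abs_nonneg _) hτ.2).trans_lt ht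
    have h1 := mvt_convex (ψ := fun τ => e₃ (F (t₀ + τ * (t - t₀)))) (ψ' := fun _ => 0)
      (C := {(0 : K.model)}) (by
        intro τ hτ
        have h2 := ((hV _ e₃ (chart_mem_atlas _ _) (hin τ hτ)).comp
          (tendsto_mul_ne (t - t₀) hne)).const_smul (t - t₀)
        rw [smul_zero] at h2
        refine h2.congr' ?_
        filter_upwards [self_mem_nhdsWithin] with s hs
        have hs' : s ≠ 0 := hs
        simp only [Function.comp]
        rw [smul_smul]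
        congr 1
        · field_simp
        · rw [add_mul, add_assoc])
      (convex_singleton _) isClosed_singleton (fun _ _ => rfl)
    simp only [one_mul, zero_mul, add_zero, add_sub_cancel, mem_singleton_iff, sub_eq_zero] at h1
    exact e₃.injOn (hsub ht) (mem_chart_source _ _) h1
  have h0 : F t = F 0 := hloc.apply_eq_of_preconnectedSpace t 0
  have h1 : F 0 = 1 := by
    simp only [hF]
    rw [z₁, z₂, inv_one, mul_one]
  rw [h1] at h0
  exact mul_inv_eq_one.1 h0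

end Curve

end Pool.Agent.MP_862e0f
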