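import Mathlib

/-!
# Facts on `L¹([0,1])`
-/

namespace Pool.Agent.MP_862e0f

open Filter Topology Set MeasureTheory

/-- Lebesgue measure on `(0, 1]`. -/
noncomputable abbrev mu : Measure ℝ := volume.restrict (Ioc (0 : ℝ) 1)

/-- The space `L¹([0,1])`. -/
abbrev L1 : Type := Lp ℝ 1 mu

/-- The indicator function of a measurable set. -/
noncomputable def ind (s : Set ℝ) (hs : MeasurableSet s) : L1 :=
  indicatorConstLp 1 hs (measure_ne_top mu s) (1 : ℝ)

theorem ind_congr {s t : Set ℝ} (hs : MeasurableSet s) (ht : MeasurableSet t)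
    (h : s =ᵐ[mu] t) : ind s hs = ind t ht := by
  rw [ind, ind, indicatorConstLp_inj _ _ _ _ one_ne_zero]
  exact h

theorem ind_eq {s t : Set ℝ} (hs : MeasurableSet s) (ht : MeasurableSet t)
    (h : s = t) : ind s hs = ind t ht := by
  subst h; rfl

theorem ind_union {s t : Set ℝ} (hs : MeasurableSet s) (ht : MeasurableSet t)
    (hst : Disjoint s t) : ind (s ∪ t) (hs.union ht) = ind s hs + ind t ht :=
  indicatorConstLp_disjoint_union hs ht _ _ hst 1

theorem norm_ind (s : Set ℝ) (hs : MeasurableSet s) : ‖ind s hs‖ = mu.real s := by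
  rw [ind, norm_indicatorConstLp one_ne_zero ENNReal.one_ne_top]
  simp

/-- The indicator function of `(-∞, q]`. -/
noncomputable def cc (q : ℚ) : L1 := ind (Iic (q : ℝ)) measurableSet_Iic

theorem cc_sub {q q' : ℚ} (h : q' ≤ q) :
    cc q = cc q' + ind (Ioc (q' : ℝ) q) measurableSet_Ioc := by
  have h' : (q' : ℝ) ≤ q := by exact_mod_cast h
  rw [cc, cc, ← ind_union]
  · apply ind_eq
    rw [Iic_union_Ioc_eq_Iic h']
  · rw [Set.disjoint_left]
    intro x hx hx'
    exact absurd hx'.1 (not_lt.2 hx)

theorem norm_cc_sub_le (q q' : ℚ) : ‖cc q - cc q'‖ ≤ |(q : ℝ) - q'| := by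
  wlog h : q' ≤ q generalizing q q'
  · rw [norm_sub_rev, abs_sub_comm]
    exact this q' q (le_of_not_ge h)
  have h' : (q' : ℝ) ≤ q := by exact_mod_cast h
  rw [cc_sub h, add_sub_cancel_left, norm_ind, abs_of_nonneg (sub_nonneg.2 h')]
  have h1 : mu (Ioc (q' : ℝ) q) ≤ volume (Ioc (q' : ℝ) q) := Measure.restrict_apply_le _ _
  rw [Real.volume_Ioc] at h1
  rw [Measure.real]
  calc (mu (Ioc (q' : ℝ) q)).toReal ≤ (ENNReal.ofReal ((q : ℝ) - q')).toReal :=
        ENNReal.toReal_mono ENNReal.ofReal_ne_top h1
    _ = (q : ℝ) - q' := ENNReal.toReal_ofReal (sub_nonneg.2 h')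

theorem cc_zero : cc 0 = 0 := by
  have h1 : cc 0 = ind ∅ MeasurableSet.empty := by
    apply ind_congr
    rw [ae_eq_empty, Measure.restrict_apply measurableSet_Iic]
    have : Iic (((0 : ℚ) : ℝ)) ∩ Ioc (0 : ℝ) 1 = ∅ := by
      ext x
      simp only [Rat.cast_zero, mem_inter_iff, mem_Iic, mem_Ioc, mem_empty_iff_false, iff_false]
      rintro ⟨h1, h2, _⟩
      linarith
    rw [this, measure_empty]
  rw [h1, ind, indicatorConstLp_empty]

theorem ind_univ : ind univ MeasurableSet.univ = cc 1 := by
  apply ind_congr
  refine (eventuallyEq_univ.2 ?_).symm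
  rw [mem_ae_iff, Measure.restrict_apply measurableSet_Iic.compl]
  have : (Iic (((1 : ℚ) : ℝ)))ᶜ ∩ Ioc (0 : ℝ) 1 = ∅ := by
    ext x
    simp only [Rat.cast_one, mem_inter_iff, mem_compl_iff, mem_Iic, mem_Ioc, mem_empty_iff_false,
      iff_false]
    rintro ⟨h1, _, h2⟩
    exact h1 h2
  rw [this, measure_empty]

/-- A continuous functional vanishing on all indicator functions of intervals with rational end
points is zero. -/
theorem functional_eq_zero (T : L1 →L[ℝ] ℝ) (hT : ∀ q, T (cc q) = 0) : T = 0 := by
  have key : ∀ (s : Set ℝ) (hs : MeasurableSet s), T (ind s hs) = 0 := by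
    have hgen : (inferInstance : MeasurableSpace ℝ) =
        MeasurableSpace.generateFrom (⋃ a : ℚ, {Iic (a : ℝ)}) := by
      rw [← Real.borel_eq_generateFrom_Iic_rat]
      exact BorelSpace.measurable_eq
    refine MeasurableSpace.induction_on_inter (C := fun s hs => T (ind s hs) = 0) hgen
      Real.isPiSystem_Iic_rat ?_ ?_ ?_ ?_
    · rw [ind, indicatorConstLp_empty, map_zero]
    · intro t ht
      obtain ⟨q, hq⟩ := mem_iUnion.1 ht
      rw [mem_singleton_iff] at hq
      subst hq
      exact hT q
    · intro t ht h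
      have h1 : ind univ MeasurableSet.univ = ind t ht + ind tᶜ ht.compl := by
        rw [← ind_union ht ht.compl disjoint_compl_right]
        apply ind_eq
        rw [union_compl_self]
      have h2 := congrArg T h1
      rw [ind_univ, hT, map_add, h, zero_add] at h2
      exact h2.symm
    · intro f hd hf h
      have hacc : ∀ n, T (ind (⋃ i ∈ Finset.range n, f i)
          (Finset.measurableSet_biUnion _ fun i _ => hf i)) = 0 := by
        intro n
        induction n with
        | zero =>
          have : ind (⋃ i ∈ Finset.range 0, f i)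
              (Finset.measurableSet_biUnion _ fun i _ => hf i) = ind ∅ MeasurableSet.empty := by
            apply ind_eq
            simp
          rw [this, ind, indicatorConstLp_empty, map_zero]
        | succ n ih =>
          have : ind (⋃ i ∈ Finset.range (n + 1), f i)
              (Finset.measurableSet_biUnion _ fun i _ => hf i) =
              ind (⋃ i ∈ Finset.range n, f i) (Finset.measurableSet_biUnion _ fun i _ => hf i) +
              ind (f n) (hf n) := by
            rw [← ind_union]
            · apply ind_eq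
              rw [Finset.range_add_one, Finset.set_biUnion_insert, union_comm]
            · rw [Set.disjoint_left]
              intro x hx hx'
              simp only [mem_iUnion, Finset.mem_range] at hx
              obtain ⟨i, hi, hxi⟩ := hx
              exact Set.disjoint_left.1 (hd hi.ne) hxi hx'
          rw [this, map_add, ih, h, zero_add]
      have hlim : Tendsto (fun n => ind (⋃ i ∈ Finset.range n, f i)
          (Finset.measurableSet_biUnion _ fun i _ => hf i)) atTop
          (𝓝 (ind (⋃ i, f i) (MeasurableSet.iUnion hf))) := by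
        apply tendsto_indicatorConstLp_set ENNReal.one_ne_top
        have h1 : Tendsto (fun n => mu (⋃ i, f i) - mu (⋃ i ∈ Finset.range n, f i)) atTop
            (𝓝 (mu (⋃ i, f i) - mu (⋃ i, f i))) := by
          apply ENNReal.Tendsto.sub tendsto_const_nhds
          · have h2 := tendsto_measure_iUnion_accumulate (μ := mu) (f := f)
            have h3 := (tendsto_add_atTop_iff_nat (f := fun n => mu (⋃ i ∈ Finset.range n, f i))
              (l := 𝓝 (mu (⋃ i, f i))) 1).1 (by
                refine h2.congr ?_
                intro n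
                congr 1
                ext x
                simp only [mem_accumulate, mem_iUnion, Finset.mem_range, exists_prop]
                constructor
                · rintro ⟨i, hi, hx⟩
                  exact ⟨i, Nat.lt_succ_of_le hi, hx⟩
                · rintro ⟨i, hi, hx⟩
                  exact ⟨i, Nat.le_of_lt_succ hi, hx⟩)
            exact h3
          · exact Or.inl (measure_ne_top _ _)
        rw [tsub_self] at h1
        refine h1.congr ?_
        intro n
        have hsub : (⋃ i ∈ Finset.range n, f i) ⊆ ⋃ i, f i := by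
          intro x hx
          simp only [mem_iUnion] at hx ⊢
          obtain ⟨i, _, hx⟩ := hx
          exact ⟨i, hx⟩
        rw [← measure_sdiff hsub
          (Finset.measurableSet_biUnion _ fun i _ => hf i).nullMeasurableSet (measure_ne_top _ _)]
        congr 1
        ext x
        simp only [Set.mem_sdiff, Set.mem_symmDiff]
        constructor
        · intro h
          exact Or.inr h
        · rintro (h | h)
          · exact absurd (hsub h.1) h.2
          · exact h
      have h4 := (T.continuous.tendsto _).comp hlim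
      refine tendsto_nhds_unique h4 ?_
      refine tendsto_const_nhds.congr ?_
      intro n
      exact (hacc n).symm
  ext f
  refine Lp.induction (p := 1) ENNReal.one_ne_top (fun f => T f = (0 : L1 →L[ℝ] ℝ) f) ?_ ?_ ?_ f
  · intro c s hs hμs
    have h1 : ((Lp.simpleFunc.indicatorConst 1 hs hμs.ne c : Lp.simpleFunc ℝ 1 mu) : L1) =
        c • ind s hs := by
      rw [Lp.simpleFunc.coe_indicatorConst, ind]
      ext1
      refine (indicatorConstLp_coeFn).trans ?_
      refine EventuallyEq.trans ?_ (Lp.coeFn_smul _ _).symm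
      filter_upwards [indicatorConstLp_coeFn (p := 1) (hs := hs) (hμs := measure_ne_top mu s)
        (c := (1 : ℝ))] with x hx
      rw [Pi.smul_apply, hx]
      by_cases hxs : x ∈ s <;> simp [hxs]
    rw [h1, map_smul, key s hs, smul_zero]
    rfl
  · intro f g hf hg _ h1 h2
    rw [map_add, h1, h2, map_add]
  · exact isClosed_eq T.continuous continuous_const

/-- The subgroup of integer valued functions. -/
def intVal : AddSubgroup L1 where
  carrier := {f | ∀ᵐ x ∂mu, ∃ n : ℤ, f x = n}
  zero_mem' := by
    filter_upwards [Lp.coeFn_zero ℝ 1 mu] with x hx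
    exact ⟨0, by rw [hx]; simp⟩
  add_mem' := by
    intro f g hf hg
    filter_upwards [hf, hg, Lp.coeFn_add f g] with x h1 h2 h3
    obtain ⟨n, hn⟩ := h1
    obtain ⟨m, hm⟩ := h2
    exact ⟨n + m, by rw [h3, Pi.add_apply, hn, hm]; push_cast; rfl⟩
  neg_mem' := by
    intro f hf
    filter_upwards [hf, Lp.coeFn_neg f] with x h1 h2
    obtain ⟨n, hn⟩ := h1
    exact ⟨-n, by rw [h2, Pi.neg_apply, hn]; push_cast; rfl⟩

theorem cc_mem (q : ℚ) : cc q ∈ intVal := by
  show ∀ᵐ x ∂mu, ∃ n : ℤ, cc q x = n
  filter_upwards [indicatorConstLp_coeFn (p := 1) (hs := (measurableSet_Iic : MeasurableSet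
    (Iic (q : ℝ)))) (hμs := measure_ne_top mu _) (c := (1 : ℝ))] with x hx
  rw [cc, ind, hx]
  by_cases h : x ∈ Iic (q : ℝ)
  · exact ⟨1, by rw [indicator_of_mem h]; simp⟩
  · exact ⟨0, by rw [indicator_of_notMem h]; simp⟩

theorem half_le_dist (f : L1) (hf : f ∈ intVal) :
    1 / 2 ≤ ‖f - (1 / 2 : ℝ) • ind univ MeasurableSet.univ‖ := by
  rw [L1.norm_eq_integral_norm]
  have h1 : ∫ _ : ℝ, (1 / 2 : ℝ) ∂mu = 1 / 2 := by
    rw [integral_const]
    simp
  refine h1.symm.trans_le ?_
  apply integral_mono_ae (integrable_const _)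
  · exact (L1.integrable_coeFn _).norm
  · have hf' : ∀ᵐ x ∂mu, ∃ n : ℤ, f x = n := hf
    filter_upwards [hf', Lp.coeFn_sub f ((1 / 2 : ℝ) • ind univ MeasurableSet.univ),
      Lp.coeFn_smul (1 / 2 : ℝ) (ind univ MeasurableSet.univ),
      indicatorConstLp_coeFn (p := 1) (hs := (MeasurableSet.univ : MeasurableSet
      (univ : Set ℝ))) (hμs := measure_ne_top mu _) (c := (1 : ℝ))] with x h2 h3 h4 h5
    obtain ⟨n, hn⟩ := h2
    have h6 : (ind univ MeasurableSet.univ) x = 1 := by
      rw [ind, h5]
      simp
    rw [h3, Pi.sub_apply, hn, h4, Pi.smul_apply, h6, Real.norm_eq_abs]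
    have h7 : (1 : ℝ) ≤ |(2 * n - 1 : ℤ)| := by
      have : (1 : ℤ) ≤ |2 * n - 1| := Int.one_le_abs (by omega)
      exact_mod_cast this
    push_cast at h7
    have h8 : (n : ℝ) - (1 / 2 : ℝ) • (1 : ℝ) = (2 * n - 1) / 2 := by
      rw [smul_eq_mul]; ring
    rw [h8, abs_div, abs_two]
    linarith

end Pool.Agent.MP_862e0f
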