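import Pool.Agent.Lib.MP_862e0f_al.Curve
import Pool.Agent.Lib.MP_862e0f_al.L1

/-!
# The two Lie groups and the homomorphism
-/

namespace Pool.Agent.MP_862e0f

open Filter Topology Set MeasureTheory

/-- Continuous linear maps are `C^k`. -/
theorem ckOn_clm : ∀ (k : ℕ) {E F : Type} [AddCommGroup E] [Module ℝ E] [TopologicalSpace E]
    [AddCommGroup F] [Module ℝ F] [TopologicalSpace F] (f : E →L[ℝ] F) (U : Set E), CkOn k f U
  | 0, _, _, _, _, _, _, _, _, f, _ => f.continuous.continuousOn
  | k + 1, E, _, _, _, _, _, _, _, f, _ => by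
    refine ⟨f.continuous.continuousOn, fun p => f p.2, ?_, ?_⟩
    · intro x _ v
      refine tendsto_const_nhds.congr' ?_
      filter_upwards [self_mem_nhdsWithin] with t ht
      have ht' : t ≠ 0 := ht
      rw [map_add, add_sub_cancel_left, map_smul, smul_smul, inv_mul_cancel₀ ht', one_smul]
    · exact ckOn_clm k (f.comp (ContinuousLinearMap.snd ℝ E E)) _

/-- Constant maps are `C^k`. -/
theorem ckOn_const : ∀ (k : ℕ) {E F : Type} [AddCommGroup E] [Module ℝ E] [TopologicalSpace E]
    [AddCommGroup F] [Module ℝ F] [TopologicalSpace F] (c : F) (U : Set E),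
    CkOn k (fun _ : E => c) U
  | 0, _, _, _, _, _, _, _, _, _, _ => continuousOn_const
  | k + 1, E, F, _, _, _, _, _, _, c, _ => by
    refine ⟨continuousOn_const, fun _ => 0, ?_, ?_⟩
    · intro x _ v
      simp only [sub_self, smul_zero]
      exact tendsto_const_nhds
    · exact ckOn_const k _ _

theorem ckOn_punit (k : ℕ) {E : Type} [AddCommGroup E] [Module ℝ E] [TopologicalSpace E]
    (f : E → PUnit) (U : Set E) : CkOn k f U := by
  have h : f = fun _ => PUnit.unit := Subsingleton.elim _ _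
  rw [h]
  exact ckOn_const k _ _

/-- A normed space as a Lie group. -/
noncomputable def addLie (B : Type) [NormedAddCommGroup B] [NormedSpace ℝ B] : LieGrp :=
  let φ : OpenPartialHomeomorph (Multiplicative B) B :=
    Homeomorph.toOpenPartialHomeomorph
      { toEquiv := Multiplicative.toAdd
        continuous_toFun := continuous_toAdd
        continuous_invFun := continuous_ofAdd }
  letI cs : ChartedSpace B (Multiplicative B) :=
    { atlas := {φ}
      chartAt := fun _ => φ
      mem_chart_source := fun _ => mem_univ _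
      chart_mem_atlas := fun _ => rfl }
  { carrier := Multiplicative B
    model := B
    smooth_charts := by
      rintro e rfl e' rfl k
      exact ckOn_clm k (ContinuousLinearMap.id ℝ B) _
    smooth_mul := by
      rintro e₁ rfl e₂ rfl e₃ rfl k
      exact ckOn_clm k (ContinuousLinearMap.fst ℝ B B + ContinuousLinearMap.snd ℝ B B) _
    smooth_inv := by
      rintro e rfl e' rfl k
      exact ckOn_clm k (-ContinuousLinearMap.id ℝ B) _ }

/-- A group with the discrete topology as a Lie group. -/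
noncomputable def discLie (Γ : Type) [Group Γ] : LieGrp :=
  letI : TopologicalSpace Γ := ⊥
  haveI : DiscreteTopology Γ := ⟨rfl⟩
  letI cs : ChartedSpace PUnit Γ := ChartedSpace.ofDiscreteTopology
  { carrier := Γ
    model := PUnit
    smooth_charts := by
      intro e _ e' _ k
      exact ckOn_punit k _ _
    smooth_mul := by
      intro e₁ _ e₂ _ e₃ _ k
      exact ckOn_punit k _ _
    smooth_inv := by
      intro e _ e' _ k
      exact ckOn_punit k _ _ }

theorem const_of_sq {φ : ℚ → ℝ} {δ M : ℝ} (hδ : 0 < δ)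
    (h : ∀ q q' : ℚ, |(q : ℝ) - q'| < δ → |φ q - φ q'| ≤ M * ((q : ℝ) - q') ^ 2) (q : ℚ) :
    φ q = φ 0 := by
  have hstep : ∀ n : ℕ, 0 < n → |(q : ℝ)| / n < δ → |φ q - φ 0| ≤ M * (q : ℝ) ^ 2 / n := by
    intro n hn hnδ
    have hn' : (0 : ℝ) < n := by exact_mod_cast hn
    have h1 : ∀ m : ℕ, m ≤ n → |φ (q * m / n) - φ 0| ≤ m * (M * ((q : ℝ) / n) ^ 2) := by
      intro m
      induction m with
      | zero => intro _; simp
      | succ m ih =>
        intro hm
        have h2 := ih (by omega)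
        have h3 : ((q * (m + 1 : ℕ) / n : ℚ) : ℝ) - ((q * m / n : ℚ) : ℝ) = (q : ℝ) / n := by
          push_cast
          field_simp
          ring
        have h4 := h (q * (m + 1 : ℕ) / n) (q * m / n) (by
          rw [h3, abs_div, abs_of_pos hn']
          exact hnδ)
        rw [h3] at h4
        calc |φ (q * (m + 1 : ℕ) / n) - φ 0|
            ≤ |φ (q * (m + 1 : ℕ) / n) - φ (q * m / n)| + |φ (q * m / n) - φ 0| :=
              abs_sub_le _ _ _
          _ ≤ M * ((q : ℝ) / n) ^ 2 + m * (M * ((q : ℝ) / n) ^ 2) := add_le_add h4 h2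
          _ = ((m + 1 : ℕ) : ℝ) * (M * ((q : ℝ) / n) ^ 2) := by push_cast; ring
    have h2 := h1 n le_rfl
    have hq : q * n / n = q := by
      have : (n : ℚ) ≠ 0 := by exact_mod_cast hn.ne'
      field_simp
    rw [hq] at h2
    calc |φ q - φ 0| ≤ n * (M * ((q : ℝ) / n) ^ 2) := h2
      _ = M * (q : ℝ) ^ 2 / n := by field_simp
  have hlim : Tendsto (fun n : ℕ => M * (q : ℝ) ^ 2 / (n : ℝ)) atTop (𝓝 0) :=
    tendsto_const_div_atTop_nhds_zero_nat _
  have hlim' : Tendsto (fun n : ℕ => |(q : ℝ)| / (n : ℝ)) atTop (𝓝 0) :=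
    tendsto_const_div_atTop_nhds_zero_nat _
  have h1 : |φ q - φ 0| ≤ 0 := by
    apply ge_of_tendsto hlim
    filter_upwards [hlim'.eventually (gt_mem_nhds hδ), eventually_gt_atTop 0] with n h1 h2
    exact hstep n h2 h1
  have h2 := abs_nonneg (φ q - φ 0)
  have h3 : φ q - φ 0 = 0 := abs_eq_zero.1 (le_antisymm h1 h2)
  linarith

section Main

variable {K : LieGrp}

/-- A smooth homomorphism from a normed space in the chart at `1`. -/
theorem chart_data {B : Type} [NormedAddCommGroup B] [NormedSpace ℝ B]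
    {g : Multiplicative B →* K.carrier} (hg : IsMor (G := addLie B) (H := K) g) :
    Continuous (fun v : B => g (Multiplicative.ofAdd v)) ∧
    ∃ (S : Set B) (df : B × B → K.model) (ddf : (B × B) × (B × B) → K.model),
      IsOpen S ∧ (0 : B) ∈ S ∧
      HasD (fun v => chartAt K.model (1 : K.carrier) (g (Multiplicative.ofAdd v))) S df ∧
      HasD df (S ×ˢ univ) ddf ∧ ContinuousOn df (S ×ˢ univ) ∧
      ContinuousOn ddf ((S ×ˢ univ) ×ˢ univ) := by
  obtain ⟨hgc, hgs⟩ := hg
  have hc : Continuous (fun v : B => g (Multiplicative.ofAdd v)) := hgc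
  refine ⟨hc, ?_⟩
  have h1 := hgs _ (Set.mem_singleton _) (chartAt K.model (1 : K.carrier)) (chart_mem_atlas _ _) 2
  have h2 : CkOn 2 (fun v : B => chartAt K.model (1 : K.carrier) (g (Multiplicative.ofAdd v)))
      {x | x ∈ (univ : Set B) ∧ g (Multiplicative.ofAdd x) ∈
        (chartAt K.model (1 : K.carrier)).source} := h1
  obtain ⟨df, hdf, hc1⟩ := h2.exists_deriv
  obtain ⟨ddf, hddf, hc2⟩ := hc1.exists_deriv
  refine ⟨_, df, ddf, ?_, ?_, hdf, hddf, hc1.continuousOn, hc2.continuousOn⟩
  · have h3 : IsOpen ((fun v : B => g (Multiplicative.ofAdd v)) ⁻¹'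
        (chartAt K.model (1 : K.carrier)).source) :=
      (chartAt K.model (1 : K.carrier)).open_source.preimage hc
    have h4 : {x | x ∈ (univ : Set B) ∧ g (Multiplicative.ofAdd x) ∈
        (chartAt K.model (1 : K.carrier)).source} = (fun v : B => g (Multiplicative.ofAdd v)) ⁻¹'
        (chartAt K.model (1 : K.carrier)).source := by
      ext x
      simp
    rw [h4]
    exact h3
  · refine ⟨mem_univ _, ?_⟩
    rw [ofAdd_zero, map_one]
    exact mem_chart_source _ _

/-- Two smooth homomorphisms on `L¹` which agree on the indicator functions are equal. -/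
theorem homs_eq {g₁ g₂ : Multiplicative L1 →* K.carrier} (h₁ : IsMor (G := addLie L1) (H := K) g₁)
    (h₂ : IsMor (G := addLie L1) (H := K) g₂)
    (h : ∀ q, g₁ (Multiplicative.ofAdd (cc q)) = g₂ (Multiplicative.ofAdd (cc q))) :
    g₁ = g₂ := by
  obtain ⟨c₁, S₁, d₁, dd₁, hS₁, h0₁, hd₁, hdd₁, hcd₁, hcdd₁⟩ := chart_data h₁
  obtain ⟨c₂, S₂, d₂, dd₂, hS₂, h0₂, hd₂, hdd₂, hcd₂, hcdd₂⟩ := chart_data h₂
  set e := chartAt K.model (1 : K.carrier) with he
  -- agreement on differences
  have hdiff : ∀ q q', g₁ (Multiplicative.ofAdd (cc q - cc q')) =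
      g₂ (Multiplicative.ofAdd (cc q - cc q')) := by
    intro q q'
    rw [ofAdd_sub, map_div, map_div, h, h]
  have contD : ∀ {S : Set L1} {d : L1 × L1 → K.model}, IsOpen S → (0 : L1) ∈ S →
      ContinuousOn d (S ×ˢ univ) → Continuous (fun v => d (0, v)) := by
    intro S d hS h0 hc
    rw [← continuousOn_univ]
    exact hc.comp (Continuous.continuousOn (by fun_prop)) (fun v _ => ⟨h0, mem_univ _⟩)
  have hD : ∀ v : L1, d₁ (0, v) = d₂ (0, v) := by
    intro v
    by_contra hne
    obtain ⟨l, hl⟩ := SeparatingDual.exists_ne_zero (R := ℝ) (sub_ne_zero.2 hne)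
    obtain ⟨δ₁, hδ₁, C₁, hC₁, hb₁⟩ := taylor_bound hS₁ h0₁ hd₁ hdd₁ hcdd₁ l
    obtain ⟨δ₂, hδ₂, C₂, hC₂, hb₂⟩ := taylor_bound hS₂ h0₂ hd₂ hdd₂ hcdd₂ l
    let A : L1 →+ ℝ :=
      { toFun := fun v => l (d₁ (0, v)) - l (d₂ (0, v))
        map_zero' := by rw [hd₁.zero h0₁, hd₂.zero h0₂]; simp
        map_add' := by
          intro v w
          rw [deriv_add hS₁ h0₁ hd₁ hdd₁ hcdd₁ l, deriv_add hS₂ h0₂ hd₂ hdd₂ hcdd₂ l]
          ring }
    have hA : Continuous A :=
      (l.continuous.comp (contD hS₁ h0₁ hcd₁)).sub (l.continuous.comp (contD hS₂ h0₂ hcd₂))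
    let T : L1 →L[ℝ] ℝ := A.toRealLinearMap hA
    have hT : ∀ v, T v = l (d₁ (0, v)) - l (d₂ (0, v)) := fun v => rfl
    have hbound : ∀ q q' : ℚ, |(q : ℝ) - q'| < min δ₁ δ₂ →
        |T (cc q) - T (cc q')| ≤ (C₁ + C₂) * ((q : ℝ) - q') ^ 2 := by
      intro q q' hqq
      have hn := norm_cc_sub_le q q'
      have b1 := hb₁ 0 (cc q - cc q') (by simpa using hδ₁)
        ((hn.trans_lt hqq).trans_le (min_le_left _ _))
      have b2 := hb₂ 0 (cc q - cc q') (by simpa using hδ₂)
        ((hn.trans_lt hqq).trans_le (min_le_right _ _))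
      rw [zero_add, norm_zero, zero_add] at b1 b2
      rw [hdiff] at b1
      have e0 : g₁ (Multiplicative.ofAdd 0) = g₂ (Multiplicative.ofAdd (0 : L1)) := by
        rw [ofAdd_zero, map_one, map_one]
      rw [e0] at b1
      rw [← map_sub, hT]
      have hsq : ‖cc q - cc q'‖ * ‖cc q - cc q'‖ ≤ ((q : ℝ) - q') ^ 2 := by
        rw [← sq_abs ((q : ℝ) - q'), sq]
        gcongr
      have c1 : C₁ * ‖cc q - cc q'‖ * ‖cc q - cc q'‖ ≤ C₁ * ((q : ℝ) - q') ^ 2 := by
        rw [mul_assoc]; gcongr
      have c2 : C₂ * ‖cc q - cc q'‖ * ‖cc q - cc q'‖ ≤ C₂ * ((q : ℝ) - q') ^ 2 := by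
        rw [mul_assoc]; gcongr
      have d1 := abs_le.1 (b1.trans c1)
      have d2 := abs_le.1 (b2.trans c2)
      rw [abs_le]
      constructor <;> linarith [d1.1, d1.2, d2.1, d2.2]
    have hTq : ∀ q, T (cc q) = 0 := by
      intro q
      have := const_of_sq (φ := fun q => T (cc q)) (lt_min hδ₁ hδ₂) hbound q
      simp only [cc_zero, map_zero] at this
      exact this
    have hT0 := functional_eq_zero T hTq
    have h1 : T v = 0 := by rw [hT0]; rfl
    rw [hT, ← map_sub] at h1
    exact hl h1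
  -- one-parameter groups
  apply MonoidHom.ext
  intro x
  obtain ⟨v, rfl⟩ : ∃ v : L1, Multiplicative.ofAdd v = x := ⟨Multiplicative.toAdd x, rfl⟩
  have hcurve := one_param_eq (K := K) (γ₁ := fun t : ℝ => g₁ (Multiplicative.ofAdd (t • v)))
    (γ₂ := fun t : ℝ => g₂ (Multiplicative.ofAdd (t • v)))
    (c₁.comp (continuous_id.smul continuous_const)) (c₂.comp (continuous_id.smul continuous_const))
    (fun s t => by
      show g₁ (Multiplicative.ofAdd ((s + t) • v)) = _
      rw [add_smul, ofAdd_add, map_mul])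
    (fun s t => by
      show g₂ (Multiplicative.ofAdd ((s + t) • v)) = _
      rw [add_smul, ofAdd_add, map_mul])
    (by
      have a1 := hd₁ 0 h0₁ v
      have a2 := hd₂ 0 h0₂ v
      have a3 := a1.sub a2
      rw [hD, sub_self] at a3
      refine a3.congr ?_
      intro t
      simp only [zero_add, ofAdd_zero, map_one]
      rw [← smul_sub]
      congr 1
      abel) 1
  simpa using hcurve

end Main

/-- The countable group. -/
abbrev Gam : Type := Multiplicative (ℚ →₀ ℤ)

/-- The homomorphism sending the generator `q` to the indicator function of `[0, q]`. -/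
noncomputable def ff : Gam →* Multiplicative L1 :=
  AddMonoidHom.toMultiplicative
    (Finsupp.liftAddHom (fun q : ℚ => zmultiplesHom L1 (cc q)) : (ℚ →₀ ℤ) →+ L1)

theorem ff_single (q : ℚ) : ff (Multiplicative.ofAdd (Finsupp.single q 1)) =
    Multiplicative.ofAdd (cc q) := by
  show Multiplicative.ofAdd ((Finsupp.liftAddHom (fun q : ℚ => zmultiplesHom L1 (cc q)))
    (Finsupp.single q 1)) = _
  rw [Finsupp.liftAddHom_apply_single, zmultiplesHom_apply, one_smul]

theorem ff_mem (x : Gam) : Multiplicative.toAdd (ff x) ∈ intVal := by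
  show (Finsupp.liftAddHom (fun q : ℚ => zmultiplesHom L1 (cc q))) (Multiplicative.toAdd x) ∈ _
  generalize Multiplicative.toAdd x = y
  induction y using Finsupp.induction_linear with
  | zero => rw [map_zero]; exact intVal.zero_mem
  | add f g hf hg => rw [map_add]; exact intVal.add_mem hf hg
  | single q n =>
    rw [Finsupp.liftAddHom_apply_single, zmultiplesHom_apply]
    exact intVal.zsmul_mem (cc_mem q) n

/-- The answer for Banach-Lie groups. -/
theorem banach_epi : ∃ (G H : LieGrp) (f : G.carrier →* H.carrier), IsBanach G ∧ IsBanach H ∧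
    IsMor f ∧ IsEpi f ∧ ¬ DenseRange f := by
  refine ⟨discLie Gam, addLie L1, ff, ?_, ?_, ?_, ?_, ?_⟩
  · exact ⟨PUnit, inferInstance, inferInstance, inferInstance, ⟨ContinuousLinearEquiv.refl ℝ PUnit⟩⟩
  · exact ⟨L1, inferInstance, inferInstance, inferInstance, ⟨ContinuousLinearEquiv.refl ℝ L1⟩⟩
  · refine ⟨?_, ?_⟩
    · exact continuous_bot
    · intro e _ e' _ k
      have h1 : (fun x : PUnit => e' (ff (e.symm x))) = fun _ => e' (ff (e.symm PUnit.unit)) := by
        funext x
        rfl
      have h2 := ckOn_const k (E := PUnit) (F := L1) (e' (ff (e.symm PUnit.unit)))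
        {x | x ∈ e.target ∧ ff (e.symm x) ∈ e'.source}
      rw [← h1] at h2
      exact h2
  · intro K g₁ g₂ h₁ h₂ h
    apply homs_eq h₁ h₂
    intro q
    rw [← ff_single]
    exact DFunLike.congr_fun h (Multiplicative.ofAdd (Finsupp.single q 1))
  · intro hd
    have hd' : DenseRange (fun x : Gam => Multiplicative.toAdd (ff x)) := hd
    obtain ⟨y, hy⟩ := hd'.exists_mem_open (Metric.isOpen_ball
      (x := (1 / 2 : ℝ) • ind univ MeasurableSet.univ) (ε := 1 / 2))
      ⟨_, Metric.mem_ball_self (by norm_num)⟩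
    rw [Metric.mem_ball, dist_eq_norm] at hy
    exact absurd hy (not_lt.2 (half_le_dist _ (ff_mem y)))

end Pool.Agent.MP_862e0f
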