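import Pool.Agent.Lib.MP_862e0f_al.Leb

/-!
# The two Banach-Lie groups
-/

set_option autoImplicit false

namespace Pool.Agent.Lib.MP_862e0f_al

open Filter Topology Set MeasureTheory

universe w x

/-- the free abelian group on `ℚ`, with the discrete topology -/
def DZ : Type := Multiplicative (ℚ →₀ ℤ)

noncomputable instance : CommGroup DZ := inferInstanceAs (CommGroup (Multiplicative (ℚ →₀ ℤ)))

instance : TopologicalSpace DZ := ⊥

instance : DiscreteTopology DZ := ⟨rfl⟩

instance : Countable DZ := inferInstanceAs (Countable (ℚ →₀ ℤ))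

/-- the zero-dimensional model space -/
abbrev Z0 : Type := Fin 0 → ℝ

noncomputable instance : ChartedSpace Z0 DZ := ChartedSpace.ofDiscreteTopology

theorem isLieGroup_DZ : IsLieGroup Z0 DZ where
  chart_change _ _ _ _ := fun k => bastianiCk_subsingleton k _ _
  continuous_mul := continuous_of_discreteTopology
  smooth_mul _ _ _ _ _ _ := fun k => bastianiCk_subsingleton k _ _
  smooth_inv := ⟨continuous_of_discreteTopology,
    fun _ _ _ _ => fun k => bastianiCk_subsingleton k _ _⟩

/-- the discrete group as a Lie group -/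
noncomputable def grpG : LieGrp.{0, 0} where
  carrier := DZ
  model := Z0
  lie := isLieGroup_DZ

/-- the additive group of `L¹` as a Lie group -/
noncomputable def grpH : LieGrp.{0, 0} where
  carrier := Multiplicative L1
  model := L1
  lie := isLieGroup_banach

/-- the additive map sending the generators to the step functions -/
noncomputable def inclAdd : (ℚ →₀ ℤ) →+ L1 :=
  Finsupp.liftAddHom fun a : ℚ => zmultiplesHom L1 (step a)

theorem inclAdd_single (a : ℚ) : inclAdd (Finsupp.single a 1) = step a := by
  simp [inclAdd]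

theorem inclAdd_mem (z : ℚ →₀ ℤ) : inclAdd z ∈ LZ := by
  induction z using Finsupp.induction_linear with
  | zero => rw [map_zero]; exact LZ.zero_mem
  | add a b ha hb => rw [map_add]; exact LZ.add_mem ha hb
  | single a n =>
    have : inclAdd (Finsupp.single a n) = n • step a := by simp [inclAdd]
    rw [this]
    exact LZ.zsmul_mem (chi_mem _) n

/-- the homomorphism -/
noncomputable def incl : DZ →* Multiplicative L1 := AddMonoidHom.toMultiplicative inclAdd

theorem incl_morphism : IsMorphism grpG grpH incl where
  smooth := ⟨(continuous_of_discreteTopology : Continuous (incl : DZ → Multiplicative L1)),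
    fun _ _ _ _ => fun k => bastianiCk_subsingleton (E := Z0) k _ _⟩

theorem grpG_banach : grpG.IsBanach :=
  ⟨Z0, inferInstance, inferInstance, inferInstance, ⟨ContinuousLinearEquiv.refl ℝ Z0⟩⟩

theorem grpH_banach : grpH.IsBanach :=
  ⟨L1, inferInstance, inferInstance, inferInstance, ⟨ContinuousLinearEquiv.refl ℝ L1⟩⟩

theorem incl_epi (C : LieGrp.{w, x} → Prop) : IsEpi C (G := grpG) (H := grpH) incl := by
  intro K _ g₁ g₂ h₁ h₂ h
  refine L1_agree K.lie h₁.smooth h₂.smooth fun a => ?_
  have h3 := DFunLike.congr_fun h
    (Multiplicative.ofAdd (Finsupp.single a 1) : Multiplicative (ℚ →₀ ℤ))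
  have h4 : incl (Multiplicative.ofAdd (Finsupp.single a 1) : Multiplicative (ℚ →₀ ℤ)) =
      Multiplicative.ofAdd (step a) := by
    change Multiplicative.ofAdd (inclAdd (Finsupp.single a 1)) = _
    rw [inclAdd_single]
  rw [← h4]
  exact h3

theorem incl_not_dense : ¬ DenseRange (incl : DZ → Multiplicative L1) := by
  intro h
  let c : L1 := (1 / 2 : ℝ) • chi MeasurableSet.univ
  have ho : IsOpen (Multiplicative.toAdd ⁻¹' Metric.ball c (1 / 2) : Set (Multiplicative L1)) :=
    Metric.isOpen_ball.preimage continuous_toAdd
  obtain ⟨z, hz⟩ := h.exists_mem_open ho ⟨Multiplicative.ofAdd c, by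
    change c ∈ Metric.ball c (1 / 2)
    exact Metric.mem_ball_self (by norm_num)⟩
  have h1 : inclAdd (Multiplicative.toAdd (show Multiplicative (ℚ →₀ ℤ) from z)) ∈
      Metric.ball c (1 / 2) := hz
  rw [mem_ball_iff_norm] at h1
  exact absurd h1 (not_lt.mpr (norm_sub_half (inclAdd_mem _)))

theorem grpG_countable : Countable grpG.carrier := inferInstanceAs (Countable DZ)

theorem grpH_secondCountable : SecondCountableTopology grpH.carrier := by
  have : Fact ((1 : ENNReal) ≠ ⊤) := ⟨ENNReal.one_ne_top⟩
  exact inferInstanceAs (SecondCountableTopology L1)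

end Pool.Agent.Lib.MP_862e0f_al
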