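import Pool.Agent.Lib.MP_862e0f_al.Mg.G002

/-!
# Integer valued step functions
-/

set_option autoImplicit false
set_option linter.unusedSectionVars false

namespace Pool.Agent.Lib.MP_862e0f_al

open Filter Topology Set MeasureTheory

universe u v w x

/-- Lebesgue measure on `[0, 1)` -/
noncomputable abbrev mu : Measure ℝ := volume.restrict (Ico 0 1)

/-- the Banach space `L¹([0, 1))` -/
abbrev L1 : Type := Lp ℝ 1 mu

/-- the class of an indicator function -/
noncomputable def chi {s : Set ℝ} (hs : MeasurableSet s) : L1 :=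
  indicatorConstLp 1 hs (measure_ne_top mu s) (1 : ℝ)

theorem chi_ae {s : Set ℝ} (hs : MeasurableSet s) :
    ∀ᵐ x ∂mu, (chi hs : ℝ → ℝ) x = s.indicator (fun _ => (1 : ℝ)) x :=
  indicatorConstLp_coeFn

theorem norm_chi {s : Set ℝ} (hs : MeasurableSet s) : ‖chi hs‖ = mu.real s := by
  unfold chi
  rw [norm_indicatorConstLp one_ne_zero ENNReal.one_ne_top]
  simp

theorem chi_union {s t : Set ℝ} (hs : MeasurableSet s) (ht : MeasurableSet t)
    (hst : Disjoint s t) : chi (hs.union ht) = chi hs + chi ht :=
  indicatorConstLp_disjoint_union hs ht (measure_ne_top mu _) (measure_ne_top mu _) hst 1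

theorem chi_congr {s t : Set ℝ} (hs : MeasurableSet s) (ht : MeasurableSet t)
    (h : ∀ x ∈ Ico (0 : ℝ) 1, x ∈ s ↔ x ∈ t) : chi hs = chi ht := by
  apply Lp.ext
  filter_upwards [chi_ae hs, chi_ae ht, ae_restrict_mem measurableSet_Ico] with x h1 h2 hx
  rw [h1, h2]
  by_cases hs' : x ∈ s
  · rw [indicator_of_mem hs', indicator_of_mem ((h x hx).mp hs')]
  · rw [indicator_of_notMem hs', indicator_of_notMem (fun h' => hs' ((h x hx).mpr h'))]

/-- the step function `1_{[a, ∞)}` -/
noncomputable def step (a : ℝ) : L1 := chi (measurableSet_Ici (a := a))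

theorem step_sub {a b : ℝ} (hab : a ≤ b) : step a - step b = chi (measurableSet_Ico (a := a)
    (b := b)) := by
  have hd : Disjoint (Ico a b) (Ici b) := by
    rw [Set.disjoint_left]
    intro x hx hx'
    exact absurd hx.2 (not_lt.mpr hx')
  have h := chi_union (measurableSet_Ico (a := a) (b := b)) (measurableSet_Ici (a := b)) hd
  rw [sub_eq_iff_eq_add, step, step, ← h]
  apply chi_congr
  intro x _
  rw [Ico_union_Ici_eq_Ici hab]

theorem norm_step_sub {a b : ℝ} (hab : a ≤ b) : ‖step a - step b‖ ≤ b - a := by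
  rw [step_sub hab, norm_chi]
  have h1 : mu.real (Ico a b) ≤ volume.real (Ico a b) := by
    unfold Measure.real
    apply ENNReal.toReal_mono (by rw [Real.volume_Ico]; exact ENNReal.ofReal_ne_top)
    exact Measure.restrict_apply_le _ _
  refine h1.trans ?_
  rw [Real.volume_real_Ico_of_le hab]

/-- decomposition of a step function into small pieces -/
theorem step_decomp (a : ℚ) (n : ℕ) (hn : 0 < n) :
    ∑ k : Fin n, (step ((max a ((k : ℕ) / n : ℚ) : ℚ) : ℝ) -
      step ((max a (((k : ℕ) + 1 : ℕ) / n : ℚ) : ℚ) : ℝ)) = step a := by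
  rw [Fin.sum_univ_eq_sum_range
    (fun k => step ((max a ((k : ℕ) / n : ℚ) : ℚ) : ℝ) -
      step ((max a ((k + 1 : ℕ) / n : ℚ) : ℚ) : ℝ)) n,
    Finset.sum_range_sub' (fun k => step ((max a ((k : ℕ) / n : ℚ) : ℚ) : ℝ))]
  have e : ((n : ℕ) : ℚ) / n = 1 := div_self (by exact_mod_cast hn.ne')
  rw [e, Nat.cast_zero, zero_div]
  have h0 : step ((max a 0 : ℚ) : ℝ) = step a := by
    apply chi_congr
    intro x hx
    rw [mem_Ici, mem_Ici, Rat.cast_max, max_le_iff]
    exact ⟨fun h => h.1, fun h => ⟨h, by rw [Rat.cast_zero]; exact hx.1⟩⟩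
  have h1 : step ((max a 1 : ℚ) : ℝ) = 0 := by
    have : step ((max a 1 : ℚ) : ℝ) = chi MeasurableSet.empty := by
      apply chi_congr
      intro x hx
      rw [mem_Ici, Rat.cast_max, max_le_iff, Rat.cast_one]
      exact ⟨fun h => absurd hx.2 (not_lt.mpr h.2), fun h => h.elim⟩
    rw [this, ← norm_eq_zero, norm_chi]
    simp
  rw [h0, h1, sub_zero]

theorem norm_piece (a : ℚ) (n k : ℕ) (hn : 0 < n) :
    ‖step ((max a ((k : ℕ) / n : ℚ) : ℚ) : ℝ) -
      step ((max a ((k + 1 : ℕ) / n : ℚ) : ℚ) : ℝ)‖ ≤ 1 / n := by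
  have hn' : (0 : ℝ) < n := by exact_mod_cast hn
  have hle : ((k : ℕ) / n : ℚ) ≤ ((k + 1 : ℕ) / n : ℚ) := by gcongr; simp
  have h1 : ((max a ((k : ℕ) / n : ℚ) : ℚ) : ℝ) ≤ ((max a ((k + 1 : ℕ) / n : ℚ) : ℚ) : ℝ) := by
    exact_mod_cast max_le_max_left a hle
  refine (norm_step_sub h1).trans ?_
  have h2 : (max a ((k + 1 : ℕ) / n : ℚ) : ℚ) - max a ((k : ℕ) / n : ℚ) ≤ 1 / n := by
    have e : ((k + 1 : ℕ) / n : ℚ) = (k : ℕ) / n + 1 / n := by push_cast; ring
    have hp : (0 : ℚ) ≤ 1 / n := by positivity
    rw [e, sub_le_iff_le_add]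
    apply max_le
    · have := le_max_left a ((k : ℕ) / n : ℚ)
      linarith
    · have := le_max_right a ((k : ℕ) / n : ℚ)
      linarith
  have h3 : (((max a ((k + 1 : ℕ) / n : ℚ) : ℚ) - max a ((k : ℕ) / n : ℚ) : ℚ) : ℝ) ≤
      ((1 / n : ℚ) : ℝ) := Rat.cast_le.mpr h2
  rw [Rat.cast_sub] at h3
  simpa using h3

section agree

variable {F : Type v} [AddCommGroup F] [Module ℝ F] [TopologicalSpace F]
    [IsTopologicalAddGroup F] [ContinuousSMul ℝ F] [LocallyConvexSpace ℝ F] [T2Space F]
    {K : Type w} [Group K] [TopologicalSpace K] [T2Space K] [ChartedSpace F K]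

/-- the subspace on which two homomorphisms agree -/
def eqSpace (g₁ g₂ : Multiplicative L1 →* K) : Submodule ℝ L1 where
  carrier := {x | ∀ t : ℝ, g₁ (Multiplicative.ofAdd (t • x)) = g₂ (Multiplicative.ofAdd (t • x))}
  add_mem' := by
    intro x y hx hy t
    rw [smul_add, ofAdd_add, map_mul, map_mul, hx t, hy t]
  zero_mem' := by
    intro t
    rw [smul_zero, ofAdd_zero, map_one, map_one]
  smul_mem' := by
    intro c x hx t
    rw [smul_smul]
    exact hx _

theorem eqSpace_closed {g₁ g₂ : Multiplicative L1 →* K} (h₁ : Continuous g₁)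
    (h₂ : Continuous g₂) : IsClosed (eqSpace g₁ g₂ : Set L1) := by
  have : (eqSpace g₁ g₂ : Set L1) = ⋂ t : ℝ, {x | g₁ (Multiplicative.ofAdd (t • x)) =
      g₂ (Multiplicative.ofAdd (t • x))} := by
    ext x
    simp only [mem_iInter]
    rfl
  rw [this]
  exact isClosed_iInter fun t => isClosed_eq
    (h₁.comp (continuous_ofAdd.comp (continuous_const_smul t)))
    (h₂.comp (continuous_ofAdd.comp (continuous_const_smul t)))

/-- smooth homomorphisms on `L¹` are determined by the step functions -/
theorem L1_agree (hK : IsLieGroup F K) {g₁ g₂ : Multiplicative L1 →* K}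
    (hg₁ : SmoothMap L1 F g₁) (hg₂ : SmoothMap L1 F g₂)
    (h : ∀ a : ℚ, g₁ (Multiplicative.ofAdd (step a)) = g₂ (Multiplicative.ofAdd (step a))) :
    g₁ = g₂ := by
  have hcl := eqSpace_closed (g₁ := g₁) (g₂ := g₂) hg₁.1 hg₂.1
  -- step functions
  have hstep : ∀ a : ℚ, step a ∈ eqSpace g₁ g₂ := by
    intro a t
    refine agree_of_decomp hK hg₁ hg₂ (step a) 1 ?_ t
    intro n hn
    refine ⟨fun k => step ((max a ((k : ℕ) / n : ℚ) : ℚ) : ℝ) -
      step ((max a (((k : ℕ) + 1 : ℕ) / n : ℚ) : ℚ) : ℝ), fun k => norm_piece a n k hn,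
      fun k => ?_, step_decomp a n hn⟩
    rw [ofAdd_sub, map_div, map_div, h, h]
  -- all measurable sets
  have huniv : chi MeasurableSet.univ ∈ eqSpace g₁ g₂ := by
    have : chi MeasurableSet.univ = step ((0 : ℚ) : ℝ) := by
      apply chi_congr
      intro x hx
      rw [Rat.cast_zero]
      exact ⟨fun _ => hx.1, fun _ => mem_univ _⟩
    rw [this]
    exact hstep 0
  have hmeas : ∀ (s : Set ℝ) (hs : MeasurableSet s), chi hs ∈ eqSpace g₁ g₂ := by
    refine MeasurableSpace.induction_on_inter
      (m := Real.measurableSpace) (C := fun s hs => chi hs ∈ eqSpace g₁ g₂)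
      (BorelSpace.measurable_eq.trans Real.borel_eq_generateFrom_Ici_rat)
      Real.isPiSystem_Ici_rat ?_ ?_ ?_ ?_
    · have : chi MeasurableSet.empty = 0 := by
        rw [← norm_eq_zero, norm_chi]
        simp
      rw [this]
      exact Submodule.zero_mem _
    · intro t ht
      simp only [mem_iUnion, mem_singleton_iff] at ht
      obtain ⟨a, rfl⟩ := ht
      exact hstep a
    · intro t htm ht
      have h1 := chi_union htm htm.compl disjoint_compl_right
      have h2 : chi (htm.union htm.compl) = chi MeasurableSet.univ := by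
        apply chi_congr
        intro x _
        rw [union_compl_self]
      rw [h2] at h1
      have h3 : chi htm.compl = chi MeasurableSet.univ - chi htm :=
        eq_sub_of_add_eq' h1.symm
      rw [h3]
      exact Submodule.sub_mem _ huniv ht
    · intro f hd hfm hf
      have hacc : ∀ n, MeasurableSet (accumulate f n) :=
        fun n => MeasurableSet.biUnion (to_countable _) fun i _ => hfm i
      have h1 : ∀ n, chi (hacc n) ∈ eqSpace g₁ g₂ := by
        intro n
        induction n with
        | zero =>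
          have : chi (hacc 0) = chi (hfm 0) := by
            apply chi_congr
            intro x _
            simp [accumulate_def]
          rw [this]
          exact hf 0
        | succ n ih =>
          have hdis : Disjoint (accumulate f n) (f (n + 1)) := by
            rw [Set.disjoint_left]
            intro x hx hx'
            rw [mem_accumulate] at hx
            obtain ⟨i, hi, hxi⟩ := hx
            exact Set.disjoint_left.mp (hd (show i ≠ n + 1 by omega)) hxi hx'
          have h2 : chi (hacc (n + 1)) = chi ((hacc n).union (hfm (n + 1))) := by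
            apply chi_congr
            intro x _
            rw [mem_union, mem_accumulate, mem_accumulate]
            constructor
            · rintro ⟨i, hi, hxi⟩
              rcases Nat.lt_or_ge i (n + 1) with h | h
              · exact Or.inl ⟨i, by omega, hxi⟩
              · obtain rfl : i = n + 1 := le_antisymm hi h
                exact Or.inr hxi
            · rintro (⟨i, hi, hxi⟩ | hx)
              · exact ⟨i, by omega, hxi⟩
              · exact ⟨n + 1, le_rfl, hx⟩
          rw [h2, chi_union (hacc n) (hfm (n + 1)) hdis]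
          exact Submodule.add_mem _ ih (hf _)
      have h3 : Tendsto (fun n => chi (hacc n)) atTop (𝓝 (chi (MeasurableSet.iUnion hfm))) := by
        apply tendsto_indicatorConstLp_set ENNReal.one_ne_top
        have h4 := tendsto_measure_iUnion_accumulate (μ := mu) (f := f)
        have h5 : Tendsto (fun n => mu (⋃ i, f i) - mu (accumulate f n)) atTop (𝓝 0) := by
          have := ENNReal.Tendsto.sub (tendsto_const_nhds (x := mu (⋃ i, f i))) h4
            (Or.inl (measure_ne_top mu _))
          rwa [tsub_self] at this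
        refine h5.congr fun n => ?_
        have hsub : accumulate f n ⊆ ⋃ i, f i := accumulate_subset_iUnion n
        rw [← measure_sdiff hsub (hacc n).nullMeasurableSet (measure_ne_top mu _)]
        congr 1
        rw [Set.symmDiff_def, Set.sdiff_eq_empty.mpr hsub, Set.empty_union]
      exact hcl.mem_of_tendsto h3 (Eventually.of_forall h1)
  -- everything
  have key : ∀ f : L1, f ∈ eqSpace g₁ g₂ := by
    refine Lp.induction (p := 1) ENNReal.one_ne_top (fun f : L1 => f ∈ eqSpace g₁ g₂) ?_ ?_ ?_
    · intro c s hs hμs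
      have e : ((Lp.simpleFunc.indicatorConst 1 hs hμs.ne c : Lp.simpleFunc ℝ 1 mu) : L1) =
          c • chi hs := by
        rw [Lp.simpleFunc.coe_indicatorConst]
        apply Lp.ext
        filter_upwards [indicatorConstLp_coeFn (p := 1) (μ := mu) (hs := hs) (hμs := hμs.ne)
          (c := c), chi_ae hs, Lp.coeFn_smul c (chi hs)] with x h1 h2 h3
        rw [h1, h3, Pi.smul_apply, h2]
        by_cases hx : x ∈ s
        · rw [indicator_of_mem hx, indicator_of_mem hx, smul_eq_mul, mul_one]
        · rw [indicator_of_notMem hx, indicator_of_notMem hx, smul_zero]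
      rw [e]
      exact Submodule.smul_mem _ c (hmeas s hs)
    · intro f g hf hg _ h1 h2
      exact Submodule.add_mem _ h1 h2
    · exact hcl
  ext f
  have := key (Multiplicative.toAdd f) 1
  rw [one_smul] at this
  exact this

end agree

/-- the subgroup of integer valued functions -/
noncomputable def LZ : AddSubgroup L1 where
  carrier := {f | ∀ᵐ x ∂mu, ∃ n : ℤ, (f : ℝ → ℝ) x = n}
  add_mem' := by
    intro f g hf hg
    filter_upwards [hf, hg, Lp.coeFn_add f g] with x ⟨m, hm⟩ ⟨n, hn⟩ h
    exact ⟨m + n, by rw [h, Pi.add_apply, hm, hn]; push_cast; ring⟩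
  zero_mem' := by
    filter_upwards [Lp.coeFn_zero ℝ 1 mu] with x h
    exact ⟨0, by rw [h]; simp⟩
  neg_mem' := by
    intro f hf
    filter_upwards [hf, Lp.coeFn_neg f] with x ⟨m, hm⟩ h
    exact ⟨-m, by rw [h, Pi.neg_apply, hm]; push_cast; ring⟩

theorem chi_mem {s : Set ℝ} (hs : MeasurableSet s) : chi hs ∈ LZ := by
  filter_upwards [chi_ae hs] with x h
  by_cases hx : x ∈ s
  · exact ⟨1, by rw [h, indicator_of_mem hx]; simp⟩
  · exact ⟨0, by rw [h, indicator_of_notMem hx]; simp⟩

/-- the integer valued functions stay away from the constant function `1/2` -/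
theorem norm_sub_half {f : L1} (hf : f ∈ LZ) :
    1 / 2 ≤ ‖f - (1 / 2 : ℝ) • chi MeasurableSet.univ‖ := by
  rw [L1.norm_eq_integral_norm]
  have h1 : ∫ _ : ℝ, (1 / 2 : ℝ) ∂mu = 1 / 2 := by
    rw [integral_const]
    simp
  refine h1.symm.le.trans ?_
  apply integral_mono_ae (integrable_const _) (L1.integrable_coeFn _).norm
  filter_upwards [hf, Lp.coeFn_sub f ((1 / 2 : ℝ) • chi MeasurableSet.univ),
    Lp.coeFn_smul (1 / 2 : ℝ) (chi MeasurableSet.univ), chi_ae MeasurableSet.univ]
    with x ⟨n, hn⟩ h2 h3 h4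
  rw [h2, Pi.sub_apply, h3, Pi.smul_apply, h4, hn, indicator_univ, smul_eq_mul, mul_one,
    Real.norm_eq_abs]
  rcases le_or_gt n 0 with h | h
  · have h' : (n : ℝ) ≤ 0 := by exact_mod_cast h
    rw [abs_of_nonpos (by linarith)]
    linarith
  · have h' : (1 : ℝ) ≤ n := by exact_mod_cast h
    rw [abs_of_nonneg (by linarith)]
    linarith

end Pool.Agent.Lib.MP_862e0f_al
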