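import Pool.Agent.Lib.MP_862e0f_al.Mg.G007

/-!
# Second order bounds for `C^2` maps on a normed space
-/

namespace Pool.Agent.MP_862e0f

open Filter Topology Set

section Taylor

variable {B F : Type} [NormedAddCommGroup B] [NormedSpace ℝ B]
  [AddCommGroup F] [Module ℝ F] [TopologicalSpace F] [IsTopologicalAddGroup F]
  [ContinuousSMul ℝ F] [LocallyConvexSpace ℝ F] [T2Space F]

/-- The second derivative is homogeneous in the first increment. -/
theorem second_smul {f : B → F} {S : Set B} (hS : IsOpen S) {df : B × B → F}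
    {ddf : (B × B) × (B × B) → F} (h : HasD f S df) (h' : HasD df (S ×ˢ univ) ddf)
    {x : B} (hx : x ∈ S) (s : ℝ) (y z : B) :
    ddf ((x, s • y), (z, 0)) = s • ddf ((x, y), (z, 0)) := by
  have h1 := h' (x, s • y) ⟨hx, mem_univ _⟩ (z, 0)
  have h2 := (h' (x, y) ⟨hx, mem_univ _⟩ (z, 0)).const_smul s
  refine tendsto_nhds_unique h1 (h2.congr' ?_)
  have h3 : ∀ᶠ t : ℝ in 𝓝[≠] 0, x + t • z ∈ S := by
    have h4 : Tendsto (fun t : ℝ => x + t • z) (𝓝 0) (𝓝 (x + (0 : ℝ) • z)) :=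
      (continuous_const.add (continuous_id.smul continuous_const)).tendsto 0
    rw [zero_smul, add_zero] at h4
    exact (h4.mono_left nhdsWithin_le_nhds) (hS.mem_nhds hx)
  filter_upwards [h3] with t ht
  have e1 : (x, s • y) + t • ((z, 0) : B × B) = (x + t • z, s • y) := by
    ext <;> simp
  have e2 : (x, y) + t • ((z, 0) : B × B) = (x + t • z, y) := by
    ext <;> simp
  rw [e1, e2, h.smul ht, h.smul hx, ← smul_sub, smul_comm]

theorem second_bound {f : B → F} {S : Set B} (hS : IsOpen S) (h0 : (0 : B) ∈ S) {df : B × B → F}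
    {ddf : (B × B) × (B × B) → F} (h : HasD f S df) (h' : HasD df (S ×ˢ univ) ddf)
    (hc : ContinuousOn ddf ((S ×ˢ univ) ×ˢ univ)) (l : F →L[ℝ] ℝ) :
    ∃ δ > 0, ∃ C ≥ 0, Metric.ball (0 : B) δ ⊆ S ∧
      ∀ x y z : B, ‖x‖ < δ → |l (ddf ((x, y), (z, 0)))| ≤ C * ‖y‖ * ‖z‖ := by
  have hz : ddf (((0 : B), (0 : B)), ((0 : B), (0 : B))) = 0 :=
    h'.zero (x := ((0 : B), (0 : B))) ⟨h0, mem_univ _⟩
  have hopen : IsOpen ((S ×ˢ (univ : Set B)) ×ˢ (univ : Set (B × B))) :=
    (hS.prod isOpen_univ).prod isOpen_univ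
  have hca : ContinuousAt ddf (((0 : B), (0 : B)), ((0 : B), (0 : B))) :=
    hc.continuousAt (hopen.mem_nhds ⟨⟨h0, mem_univ _⟩, mem_univ _⟩)
  have hla : ContinuousAt (fun w => l (ddf w)) (((0 : B), (0 : B)), ((0 : B), (0 : B))) :=
    l.continuous.continuousAt.comp hca
  obtain ⟨ε, hε, hb⟩ := Metric.continuousAt_iff.1 hla 1 one_pos
  obtain ⟨ε', hε', hb'⟩ := Metric.isOpen_iff.1 hS 0 h0
  set δ := min ε ε' with hδ
  have hδ0 : 0 < δ := lt_min hε hε'
  have key : ∀ x y z : B, ‖x‖ < δ → ‖y‖ < δ → ‖z‖ < δ → |l (ddf ((x, y), (z, 0)))| ≤ 1 := by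
    intro x y z hx hy hz'
    have h1 : dist (((x, y), (z, 0)) : (B × B) × (B × B)) (((0 : B), (0 : B)), ((0 : B), (0 : B)))
        < ε := by
      simp only [Prod.dist_eq, dist_zero_right, norm_zero]
      simp only [sup_lt_iff]
      exact ⟨⟨hx.trans_le (min_le_left _ _), hy.trans_le (min_le_left _ _)⟩,
        hz'.trans_le (min_le_left _ _), hε⟩
    have h2 := hb h1
    rw [hz, map_zero, Real.dist_eq, sub_zero] at h2
    exact h2.le
  refine ⟨δ, hδ0, 4 / δ ^ 2, by positivity, ?_, ?_⟩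
  · intro x hx
    exact hb' (Metric.ball_subset_ball (min_le_right _ _) hx)
  · intro x y z hx
    have hxS : x ∈ S := hb' (by
      rw [Metric.mem_ball, dist_zero_right]
      exact hx.trans_le (min_le_right _ _))
    by_cases hy : y = 0
    · subst hy
      have := second_smul hS h h' hxS 0 0 z
      rw [zero_smul, zero_smul] at this
      rw [this]
      simp
    by_cases hz0 : z = 0
    · subst hz0
      have : ddf ((x, y), ((0 : B), (0 : B))) = 0 := h'.zero (x := (x, y)) ⟨hxS, mem_univ _⟩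
      rw [this]
      simp
    have hy' : 0 < ‖y‖ := norm_pos_iff.2 hy
    have hz' : 0 < ‖z‖ := norm_pos_iff.2 hz0
    have h1 := key x ((δ / 2 / ‖y‖) • y) ((δ / 2 / ‖z‖) • z) hx
      (by rw [norm_smul, Real.norm_of_nonneg (by positivity), div_mul_cancel₀ _ hy'.ne']; linarith)
      (by rw [norm_smul, Real.norm_of_nonneg (by positivity), div_mul_cancel₀ _ hz'.ne']; linarith)
    have h2 : (((δ / 2 / ‖z‖) • z, (0 : B)) : B × B) = (δ / 2 / ‖z‖) • (z, 0) := by
      ext <;> simp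
    rw [h2, h'.smul (x := (x, (δ / 2 / ‖y‖) • y)) ⟨hxS, mem_univ _⟩,
      second_smul hS h h' hxS, map_smul, map_smul, smul_eq_mul, smul_eq_mul, abs_mul, abs_mul,
      abs_of_nonneg (by positivity), abs_of_nonneg (by positivity)] at h1
    have h3 : 0 ≤ |l (ddf ((x, y), (z, 0)))| := abs_nonneg _
    rw [← mul_assoc] at h1
    have h4 : δ / 2 / ‖z‖ * (δ / 2 / ‖y‖) = (4 / δ ^ 2 * ‖y‖ * ‖z‖)⁻¹ := by
      field_simp; ring
    rw [h4] at h1
    have h5 : 0 < 4 / δ ^ 2 * ‖y‖ * ‖z‖ := by positivity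
    rwa [inv_mul_le_iff₀ h5, mul_one] at h1

/-- The first order Taylor bound for a `C^2` map. -/
theorem taylor_bound {f : B → F} {S : Set B} (hS : IsOpen S) (h0 : (0 : B) ∈ S) {df : B × B → F}
    {ddf : (B × B) × (B × B) → F} (h : HasD f S df) (h' : HasD df (S ×ˢ univ) ddf)
    (hc : ContinuousOn ddf ((S ×ˢ univ) ×ˢ univ)) (l : F →L[ℝ] ℝ) :
    ∃ δ > 0, ∃ C ≥ 0, ∀ x v : B, ‖x‖ < δ → ‖v‖ < δ →
      |l (f (x + v)) - l (f x) - l (df (0, v))| ≤ C * (‖x‖ + ‖v‖) * ‖v‖ := by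
  obtain ⟨δ, hδ, C, hC, hsub, hb⟩ := second_bound hS h0 h h' hc l
  -- the differential is Lipschitz in the base point
  have h1 : ∀ x v : B, ‖x‖ < δ → |l (df (x, v)) - l (df (0, v))| ≤ C * ‖v‖ * ‖x‖ := by
    intro x v hx
    have hseg : ∀ t ∈ Icc (0 : ℝ) 1, ‖t • x‖ < δ := by
      intro t ht
      rw [norm_smul, Real.norm_of_nonneg ht.1]
      exact (mul_le_of_le_one_left (norm_nonneg _) ht.2).trans_lt hx
    have hpt : ∀ t : ℝ, ((0 : B), v) + t • ((x, 0) : B × B) = (t • x, v) := by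
      intro t
      ext <;> simp
    obtain ⟨t, ht, hte⟩ := mvt_functional l
      (ψ := fun t => df (((0 : B), v) + t • ((x, 0) : B × B)))
      (ψ' := fun t => ddf (((0 : B), v) + t • ((x, 0) : B × B), (x, 0)))
      (fun t ht => h'.segment ((0 : B), v) (x, 0) t (by
        rw [hpt]
        exact ⟨hsub (by simpa using hseg t ht), mem_univ _⟩))
    simp only [hpt] at hte
    rw [one_smul, zero_smul] at hte
    rw [← hte]
    exact hb _ _ _ (hseg t (Ioo_subset_Icc_self ht))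
  refine ⟨δ / 2, by positivity, C, hC, ?_⟩
  intro x v hx hv
  have hseg : ∀ t ∈ Icc (0 : ℝ) 1, ‖x + t • v‖ ≤ ‖x‖ + ‖v‖ := by
    intro t ht
    refine (norm_add_le _ _).trans ?_
    rw [norm_smul, Real.norm_of_nonneg ht.1]
    gcongr
    exact mul_le_of_le_one_left (norm_nonneg _) ht.2
  obtain ⟨t, ht, hte⟩ := mvt_functional l
    (ψ := fun t => f (x + t • v)) (ψ' := fun t => df (x + t • v, v))
    (fun t ht => h.segment x v t (hsub (by
      have := hseg t ht
      simp only [Metric.mem_ball, dist_zero_right]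
      linarith)))
  simp only [one_smul, zero_smul, add_zero] at hte
  rw [← hte]
  have h2 := hseg t (Ioo_subset_Icc_self ht)
  have h3 := h1 (x + t • v) v (by linarith)
  calc |l (df (x + t • v, v)) - l (df (0, v))| ≤ C * ‖v‖ * ‖x + t • v‖ := h3
    _ ≤ C * ‖v‖ * (‖x‖ + ‖v‖) := by gcongr
    _ = C * (‖x‖ + ‖v‖) * ‖v‖ := by ring

/-- The differential at `0` is additive (tested by functionals). -/
theorem deriv_add {f : B → F} {S : Set B} (hS : IsOpen S) (h0 : (0 : B) ∈ S) {df : B × B → F}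
    {ddf : (B × B) × (B × B) → F} (h : HasD f S df) (h' : HasD df (S ×ˢ univ) ddf)
    (hc : ContinuousOn ddf ((S ×ˢ univ) ×ˢ univ)) (l : F →L[ℝ] ℝ) (v w : B) :
    l (df (0, v + w)) = l (df (0, v)) + l (df (0, w)) := by
  obtain ⟨δ, hδ, C, hC, hb⟩ := taylor_bound hS h0 h h' hc l
  set M := ‖v‖ + ‖w‖ with hM
  have hM0 : 0 ≤ M := by positivity
  have hvM : ‖v‖ ≤ M := by rw [hM]; linarith [norm_nonneg w]
  have hwM : ‖w‖ ≤ M := by rw [hM]; linarith [norm_nonneg v]
  have hvwM : ‖v + w‖ ≤ M := norm_add_le _ _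
  have key : ∀ t : ℝ, 0 < t → t * (M + 1) < δ →
      |l (df (0, v + w)) - l (df (0, v)) - l (df (0, w))| ≤ t * (4 * C * M ^ 2) := by
    intro t ht htδ
    have hsm : ∀ y : B, ‖y‖ ≤ M → ‖t • y‖ ≤ t * M := by
      intro y hy
      rw [norm_smul, Real.norm_of_nonneg ht.le]
      gcongr
    have htM : t * M < δ := by nlinarith
    have b1 := hb 0 (t • (v + w)) (by simpa using hδ) ((hsm _ hvwM).trans_lt htM)
    have b2 := hb 0 (t • v) (by simpa using hδ) ((hsm _ hvM).trans_lt htM)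
    have b3 := hb (t • v) (t • w) ((hsm _ hvM).trans_lt htM) ((hsm _ hwM).trans_lt htM)
    rw [h.smul h0, map_smul, smul_eq_mul] at b1 b2 b3
    rw [zero_add, norm_zero, zero_add] at b1 b2
    have c1 : C * ‖t • (v + w)‖ * ‖t • (v + w)‖ ≤ C * (t * M) * (t * M) := by
      have := hsm _ hvwM
      gcongr
    have c2 : C * ‖t • v‖ * ‖t • v‖ ≤ C * (t * M) * (t * M) := by
      have := hsm _ hvM
      gcongr
    have c3 : C * (‖t • v‖ + ‖t • w‖) * ‖t • w‖ ≤ C * (t * M + t * M) * (t * M) := by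
      have := hsm _ hvM
      have := hsm _ hwM
      gcongr
    have e1 : t • (v + w) = t • v + t • w := smul_add _ _ _
    rw [e1] at b1
    rw [e1] at c1
    have d1 := abs_le.1 (b1.trans c1)
    have d2 := abs_le.1 (b2.trans c2)
    have d3 := abs_le.1 (b3.trans c3)
    have e2 : t * |l (df (0, v + w)) - l (df (0, v)) - l (df (0, w))| ≤
        t * (t * (4 * C * M ^ 2)) := by
      rw [← abs_of_pos ht, ← abs_mul, abs_of_pos ht]
      rw [abs_le]
      constructor <;> nlinarith [d1.1, d1.2, d2.1, d2.2, d3.1, d3.2]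
    exact le_of_mul_le_mul_left e2 ht
  by_contra hne
  have hpos : 0 < |l (df (0, v + w)) - l (df (0, v)) - l (df (0, w))| := by
    apply abs_pos.2
    intro h1
    apply hne
    linarith
  set A := |l (df (0, v + w)) - l (df (0, v)) - l (df (0, w))| with hA
  have hK : 0 < 4 * C * M ^ 2 + 1 := by positivity
  obtain ⟨t, ht0, ht1⟩ : ∃ t : ℝ, 0 < t ∧ t < min (δ / (M + 1)) (A / (4 * C * M ^ 2 + 1)) :=
    exists_between (lt_min (by positivity) (by positivity))
  have ht2 : t * (M + 1) < δ := by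
    have := ht1.trans_le (min_le_left _ _)
    rwa [lt_div_iff₀ (by positivity)] at this
  have ht3 : t * (4 * C * M ^ 2 + 1) < A := by
    have := ht1.trans_le (min_le_right _ _)
    rwa [lt_div_iff₀ hK] at this
  have h1 := key t ht0 ht2
  nlinarith

end Taylor

end Pool.Agent.MP_862e0f
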