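import Mathlib

/-!
# A topological module over a topological group

For a topological group `H` and a sequence `O 0, O 1, …` of neighbourhoods of `1` put
`B 0 = {1}`, `B (n + 1) = O n * B n`. The functions on `H` which are uniformly continuous under small
left translations on all the sets `h B n`, with the topology of uniform convergence on these sets,
form a topological abelian group on which `H` acts jointly continuously.
-/

set_option autoImplicit false
set_option linter.unusedSectionVars false
set_option linter.unusedVariables false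

namespace Pool.Agent.Lib.MP_862e0f_al

open Filter Topology Set UniformConvergence Pointwise

universe u

section semidirect

/-- the semidirect product of an additive group by a group acting on it -/
structure SD (V H : Type*) where
  /-- the vector part -/
  v : V
  /-- the group part -/
  h : H

namespace SD

variable {V H : Type*}

theorem ext' {a b : SD V H} (h1 : a.v = b.v) (h2 : a.h = b.h) : a = b := by
  cases a; cases b; cases h1; cases h2; rfl

variable [AddCommGroup V] [Group H] [DistribMulAction H V]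

instance : Mul (SD V H) := ⟨fun a b => ⟨a.v + a.h • b.v, a.h * b.h⟩⟩
instance : One (SD V H) := ⟨⟨0, 1⟩⟩
instance : Inv (SD V H) := ⟨fun a => ⟨-(a.h⁻¹ • a.v), a.h⁻¹⟩⟩

theorem mul_v (a b : SD V H) : (a * b).v = a.v + a.h • b.v := rfl
theorem mul_h (a b : SD V H) : (a * b).h = a.h * b.h := rfl
theorem one_v : (1 : SD V H).v = 0 := rfl
theorem one_h : (1 : SD V H).h = 1 := rfl
theorem inv_v (a : SD V H) : (a⁻¹).v = -(a.h⁻¹ • a.v) := rfl
theorem inv_h (a : SD V H) : (a⁻¹).h = a.h⁻¹ := rfl

instance : Group (SD V H) :=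
  Group.ofLeftAxioms
    (fun a b c => ext'
      (by simp only [mul_v, mul_h, smul_add, mul_smul, add_assoc])
      (by simp only [mul_h, mul_assoc]))
    (fun a => ext' (by simp only [mul_v, one_v, one_h, one_smul, zero_add])
      (by simp only [mul_h, one_h, one_mul]))
    (fun a => ext' (by simp only [mul_v, inv_v, inv_h, one_v, neg_add_cancel])
      (by simp only [mul_h, inv_h, one_h, inv_mul_cancel]))

variable [TopologicalSpace V] [TopologicalSpace H]

instance : TopologicalSpace (SD V H) :=
  TopologicalSpace.induced (fun a => (a.v, a.h)) inferInstance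

theorem continuous_pair : Continuous (fun a : SD V H => (a.v, a.h)) := continuous_induced_dom

theorem continuous_v : Continuous (fun a : SD V H => a.v) := continuous_pair.fst

theorem continuous_h : Continuous (fun a : SD V H => a.h) := continuous_pair.snd

theorem continuous_mk {X : Type*} [TopologicalSpace X] {f : X → V} {g : X → H}
    (hf : Continuous f) (hg : Continuous g) : Continuous (fun x => (⟨f x, g x⟩ : SD V H)) :=
  continuous_induced_rng.2 (hf.prodMk hg)

instance [T2Space V] [T2Space H] : T2Space (SD V H) :=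
  T2Space.of_injective_continuous (f := fun a : SD V H => (a.v, a.h))
    (fun a b hab => ext' (congrArg Prod.fst hab) (congrArg Prod.snd hab)) continuous_induced_dom

instance [IsTopologicalAddGroup V] [IsTopologicalGroup H] [ContinuousSMul H V] :
    IsTopologicalGroup (SD V H) where
  continuous_mul := by
    have h1 : Continuous (fun p : SD V H × SD V H => p.1.v) := continuous_v.comp continuous_fst
    have h2 : Continuous (fun p : SD V H × SD V H => p.2.v) := continuous_v.comp continuous_snd
    have h3 : Continuous (fun p : SD V H × SD V H => p.1.h) := continuous_h.comp continuous_fst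
    have h4 : Continuous (fun p : SD V H × SD V H => p.2.h) := continuous_h.comp continuous_snd
    exact continuous_mk (h1.add (h3.smul h2)) (h3.mul h4)
  continuous_inv := by
    have h1 : Continuous (fun p : SD V H => p.v) := continuous_v
    have h3 : Continuous (fun p : SD V H => p.h) := continuous_h
    exact continuous_mk ((h3.inv.smul h1).neg) h3.inv

/-- the inclusion of `H` -/
def incl : H →* SD V H where
  toFun h := ⟨0, h⟩
  map_one' := rfl
  map_mul' a b := ext' (by simp only [mul_v, smul_zero, add_zero]) rfl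

/-- the inclusion of `H` conjugated by the vector `f` -/
def twist (f : V) : H →* SD V H where
  toFun h := ⟨f - h • f, h⟩
  map_one' := ext' (by simp only [one_smul, sub_self, one_v]) rfl
  map_mul' a b := ext' (by
    simp only [mul_v, smul_sub, mul_smul]
    abel) rfl

theorem continuous_incl : Continuous (incl : H →* SD V H) :=
  continuous_mk continuous_const continuous_id

theorem continuous_twist [IsTopologicalAddGroup V] [ContinuousSMul H V] (f : V) :
    Continuous (twist f : H →* SD V H) :=
  continuous_mk (continuous_const.sub (continuous_id.smul continuous_const)) continuous_id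

end SD

end semidirect

section module

variable {H : Type u} [Group H] [TopologicalSpace H]

/-- products of neighbourhoods: `B 0 = {1}`, `B (n + 1) = O n * B n` -/
def prodNhds (O : ℕ → Set H) : ℕ → Set H
  | 0 => {1}
  | n + 1 => O n * prodNhds O n

/-- the left translates of the sets `B n` -/
def famSets (O : ℕ → Set H) : Set (Set H) := {S | ∃ (h : H) (n : ℕ), S = h • prodNhds O n}

/-- uniform continuity under left translations on the sets of the family -/
def UC (O : ℕ → Set H) (f : H → ℝ) : Prop :=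
  ∀ (h : H) (n : ℕ), ∀ ε > 0, ∀ᶠ g in 𝓝 (1 : H), ∀ b ∈ prodNhds O n, |f (g * (h * b)) - f (h * b)| < ε

/-- the module of these functions -/
def modV (O : ℕ → Set H) : AddSubgroup (H →ᵤ[famSets O] ℝ) where
  carrier := {f | UC O (UniformOnFun.toFun (famSets O) f)}
  zero_mem' := by
    intro h n ε hε
    refine Filter.Eventually.of_forall fun g b _ => ?_
    change |(0 : ℝ) - 0| < ε
    simpa using hε
  add_mem' := by
    intro a b ha hb h n ε hε
    filter_upwards [ha h n (ε / 2) (half_pos hε), hb h n (ε / 2) (half_pos hε)] with g h1 h2 x hx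
    have h3 := h1 x hx
    have h4 := h2 x hx
    change |(UniformOnFun.toFun (famSets O) a (g * (h * x)) +
      UniformOnFun.toFun (famSets O) b (g * (h * x))) -
      (UniformOnFun.toFun (famSets O) a (h * x) + UniformOnFun.toFun (famSets O) b (h * x))| < ε
    rw [abs_lt] at h3 h4 ⊢
    constructor <;> linarith [h3.1, h3.2, h4.1, h4.2]
  neg_mem' := by
    intro a ha h n ε hε
    filter_upwards [ha h n ε hε] with g h1 x hx
    have h3 := h1 x hx
    change |(-UniformOnFun.toFun (famSets O) a (g * (h * x))) -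
      (-UniformOnFun.toFun (famSets O) a (h * x))| < ε
    rw [abs_lt] at h3 ⊢
    constructor <;> linarith [h3.1, h3.2]

/-- the underlying function -/
def vfn {O : ℕ → Set H} (f : modV O) : H → ℝ := UniformOnFun.toFun (famSets O) f.1

theorem modV.ext {O : ℕ → Set H} {f g : modV O} (h : ∀ x, vfn f x = vfn g x) : f = g := by
  apply Subtype.ext
  apply (UniformOnFun.toFun (famSets O)).injective
  funext x
  exact h x

/-- constructor -/
def modV.mk' {O : ℕ → Set H} (f : H → ℝ) (hf : UC O f) : modV O :=
  ⟨UniformOnFun.ofFun (famSets O) f, hf⟩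

theorem modV.fn_mk' {O : ℕ → Set H} (f : H → ℝ) (hf : UC O f) : vfn (modV.mk' f hf) = f := rfl

theorem modV.fn_uc {O : ℕ → Set H} (f : modV O) : UC O (vfn f) := f.2

theorem modV.fn_zero {O : ℕ → Set H} (x : H) : vfn (0 : modV O) x = 0 := rfl

theorem modV.fn_add {O : ℕ → Set H} (f g : modV O) (x : H) : vfn (f + g) x = vfn f x + vfn g x := rfl

variable [IsTopologicalGroup H]

theorem conj_tendsto (h : H) : Tendsto (fun g : H => h⁻¹ * g * h) (𝓝 1) (𝓝 1) := by
  have hc : Continuous (fun g : H => h⁻¹ * g * h) := by fun_prop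
  have := hc.tendsto 1
  simpa using this

/-- translates are in the module -/
theorem UC.translate {O : ℕ → Set H} {f : H → ℝ} (hf : UC O f) (k : H) :
    UC O (fun x => f (k⁻¹ * x)) := by
  intro h n ε hε
  have h1 := (conj_tendsto k).eventually (hf (k⁻¹ * h) n ε hε)
  filter_upwards [h1] with g hg b hb
  have h2 := hg b hb
  have e1 : k⁻¹ * g * k * (k⁻¹ * h * b) = k⁻¹ * (g * (h * b)) := by group
  have e2 : k⁻¹ * h * b = k⁻¹ * (h * b) := by group
  rw [e1, e2] at h2
  exact h2

noncomputable instance (O : ℕ → Set H) : DistribMulAction H (modV O) where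
  smul k f := modV.mk' (fun x => vfn f (k⁻¹ * x)) ((modV.fn_uc f).translate k)
  one_smul f := modV.ext fun x => by
    change vfn f (1⁻¹ * x) = vfn f x
    rw [inv_one, one_mul]
  mul_smul a b f := modV.ext fun x => by
    change vfn f ((a * b)⁻¹ * x) = vfn f (b⁻¹ * (a⁻¹ * x))
    rw [mul_inv_rev, mul_assoc]
  smul_zero _ := rfl
  smul_add _ _ _ := rfl

theorem modV.smul_fn {O : ℕ → Set H} (k : H) (f : modV O) (x : H) :
    vfn (k • f) x = vfn f (k⁻¹ * x) := rfl

instance (O : ℕ → Set H) : T2Space (modV O) := by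
  have hcov : ⋃₀ famSets O = univ := by
    rw [sUnion_eq_univ_iff]
    intro h
    refine ⟨h • prodNhds O 0, ⟨h, 0, rfl⟩, ?_⟩
    exact ⟨1, rfl, by simp⟩
  have : T2Space (H →ᵤ[famSets O] ℝ) := UniformOnFun.t2Space_of_covering hcov
  infer_instance

theorem modV.tendsto_iff {O : ℕ → Set H} {ι : Type*} {l : Filter ι} {F : ι → modV O} {f : modV O} :
    Tendsto F l (𝓝 f) ↔ ∀ (h : H) (n : ℕ), ∀ ε > 0, ∀ᶠ i in l, ∀ b ∈ prodNhds O n,
      |vfn (F i) (h * b) - vfn f (h * b)| < ε := by
  rw [tendsto_subtype_rng, UniformOnFun.tendsto_iff_tendstoUniformlyOn]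
  constructor
  · intro hF h n ε hε
    have h1 := Metric.tendstoUniformlyOn_iff.1 (hF (h • prodNhds O n) ⟨h, n, rfl⟩) ε hε
    filter_upwards [h1] with i hi b hb
    have h2 := hi (h * b) ⟨b, hb, rfl⟩
    rw [dist_comm, Real.dist_eq] at h2
    exact h2
  · rintro hF S ⟨h, n, rfl⟩
    rw [Metric.tendstoUniformlyOn_iff]
    intro ε hε
    filter_upwards [hF h n ε hε] with i hi x hx
    obtain ⟨b, hb, rfl⟩ := hx
    rw [dist_comm, Real.dist_eq]
    exact hi b hb

theorem modV.continuousSMul (O : ℕ → Set H) (hO : ∀ n, O n ∈ 𝓝 (1 : H)) :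
    ContinuousSMul H (modV O) := by
  constructor
  rw [continuous_iff_continuousAt]
  rintro ⟨g₀, f₀⟩
  change Tendsto (fun p : H × modV O => p.1 • p.2) (𝓝 (g₀, f₀)) (𝓝 (g₀ • f₀))
  rw [modV.tendsto_iff]
  intro h n ε hε
  set h' := g₀⁻¹ * h with hh'
  -- the second term
  have h1 : Tendsto (fun p : H × modV O => p.1⁻¹ * g₀) (𝓝 (g₀, f₀)) (𝓝 1) := by
    have hc : Continuous (fun p : H × modV O => p.1⁻¹ * g₀) := by fun_prop
    have := hc.tendsto (g₀, f₀)
    simpa using this
  have h2 := h1.eventually (modV.fn_uc f₀ h' n (ε / 2) (half_pos hε))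
  -- the first term
  have h3 : Tendsto (fun p : H × modV O => h'⁻¹ * (p.1⁻¹ * h)) (𝓝 (g₀, f₀)) (𝓝 1) := by
    have hc : Continuous (fun p : H × modV O => h'⁻¹ * (p.1⁻¹ * h)) := by fun_prop
    have := hc.tendsto (g₀, f₀)
    simpa [hh'] using this
  have h4 := h3.eventually (hO n)
  have h5 : Tendsto (fun p : H × modV O => p.2) (𝓝 (g₀, f₀)) (𝓝 f₀) :=
    continuous_snd.tendsto (g₀, f₀)
  rw [modV.tendsto_iff] at h5
  have h6 := h5 h' (n + 1) (ε / 2) (half_pos hε)
  filter_upwards [h2, h4, h6] with p hp2 hp4 hp6 b hb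
  rw [modV.smul_fn, modV.smul_fn]
  have a1 := hp2 b hb
  have a2 := hp6 (h'⁻¹ * (p.1⁻¹ * h) * b) (Set.mul_mem_mul hp4 hb)
  have e1 : p.1⁻¹ * g₀ * (h' * b) = p.1⁻¹ * (h * b) := by rw [hh']; group
  have e2 : h' * (h'⁻¹ * (p.1⁻¹ * h) * b) = p.1⁻¹ * (h * b) := by group
  have e3 : h' * b = g₀⁻¹ * (h * b) := by rw [hh']; group
  rw [e1, e3] at a1
  rw [e2] at a2
  rw [abs_lt] at a1 a2 ⊢
  constructor <;> linarith [a1.1, a1.2, a2.1, a2.2]

/-- the invariant function: infimum over the subgroup -/
theorem exists_invariant (O : ℕ → Set H) (L : Subgroup H) (c : H) (θ : H → ℝ)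
    (h0 : ∀ x, 0 ≤ θ x) (h1 : ∀ x, θ x ≤ 1) (hθ : θ 1 = 0) (hc : ∀ l ∈ L, θ (l * c) = 1)
    (hu : ∀ n : ℕ, ∀ ε > 0, ∀ᶠ g in 𝓝 (1 : H), ∀ b ∈ prodNhds O n, ∀ s, θ s < 1 →
      |θ (s * (b⁻¹ * g * b)) - θ s| ≤ ε) :
    ∃ f : modV O, (∀ l ∈ L, l • f = f) ∧ c⁻¹ • f ≠ f := by
  set F : H → ℝ := fun x => ⨅ l : L, θ (l * x) with hF
  have hbdd : ∀ x, BddBelow (range fun l : L => θ (l * x)) := fun x =>
    ⟨0, by rintro _ ⟨l, rfl⟩; exact h0 _⟩
  have hFle : ∀ (x : H) (l : H), l ∈ L → F x ≤ θ (l * x) := fun x l hl =>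
    ciInf_le (hbdd x) ⟨l, hl⟩
  have hF1 : ∀ x, F x ≤ 1 := fun x => (hFle x 1 L.one_mem).trans (h1 _)
  have hinv : ∀ l ∈ L, ∀ x, F (l * x) = F x := by
    intro l hl x
    apply le_antisymm
    · refine le_ciInf fun m => ?_
      have := hFle (l * x) (m * l⁻¹) (L.mul_mem m.2 (L.inv_mem hl))
      rwa [show (m : H) * l⁻¹ * (l * x) = m * x by group] at this
    · refine le_ciInf fun m => ?_
      have := hFle x (m * l) (L.mul_mem m.2 hl)
      rwa [mul_assoc] at this
  have key : ∀ (ε : ℝ) (g x : H), 0 < ε →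
      (∀ s, θ s < 1 → |θ (s * (x⁻¹ * g * x)) - θ s| ≤ ε) → F (g * x) ≤ F x + ε := by
    intro ε g x hε hs
    rw [← sub_le_iff_le_add]
    refine le_ciInf fun l => ?_
    rw [sub_le_iff_le_add]
    by_cases hl : θ (l * x) < 1
    · have h2 := hs (l * x) hl
      have h3 := hFle (g * x) l l.2
      rw [show (l : H) * x * (x⁻¹ * g * x) = l * (g * x) by group, abs_le] at h2
      linarith [h2.2]
    · have := hF1 (g * x)
      push Not at hl
      linarith
  have hUC : UC O F := by
    intro h n ε hε
    have a1 := (conj_tendsto h).eventually (hu n (ε / 2) (half_pos hε))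
    have a2 : Tendsto (fun g : H => h⁻¹ * g⁻¹ * h) (𝓝 1) (𝓝 1) := by
      have hc : Continuous (fun g : H => h⁻¹ * g⁻¹ * h) := by fun_prop
      have := hc.tendsto 1
      simpa using this
    have a3 := a2.eventually (hu n (ε / 2) (half_pos hε))
    filter_upwards [a1, a3] with g hg1 hg2 b hb
    have k1 := key (ε / 2) g (h * b) (half_pos hε) (fun s hs => by
      have := hg1 b hb s hs
      rwa [show b⁻¹ * (h⁻¹ * g * h) * b = (h * b)⁻¹ * g * (h * b) by group] at this)
    have k2 := key (ε / 2) g⁻¹ (g * (h * b)) (half_pos hε) (fun s hs => by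
      have := hg2 b hb s hs
      rwa [show b⁻¹ * (h⁻¹ * g⁻¹ * h) * b = (g * (h * b))⁻¹ * g⁻¹ * (g * (h * b)) by group] at this)
    rw [show g⁻¹ * (g * (h * b)) = h * b by group] at k2
    rw [abs_lt]
    constructor <;> linarith
  refine ⟨modV.mk' F hUC, ?_, ?_⟩
  · intro l hl
    refine modV.ext fun x => ?_
    rw [modV.smul_fn, modV.fn_mk']
    exact hinv _ (L.inv_mem hl) x
  · intro hne
    have e1 : vfn (c⁻¹ • modV.mk' F hUC) 1 = F c := by
      rw [modV.smul_fn, modV.fn_mk', inv_inv, mul_one]
    have e2 : vfn (modV.mk' F hUC) 1 = F 1 := rfl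
    rw [hne, e2] at e1
    have e3 : F 1 ≤ 0 := by
      have := hFle 1 1 L.one_mem
      rwa [one_mul, hθ] at this
    have e4 : 1 ≤ F c := le_ciInf fun l => (hc l l.2).ge
    linarith

end module

/-- `f` is an epimorphism with respect to the Hausdorff topological groups `K`: continuous
homomorphisms `g₁, g₂ : H → K` with `g₁ ∘ f = g₂ ∘ f` are equal. -/
def IsTopEpi {G : Type*} {H : Type u} [Group G] [Group H] [TopologicalSpace H] (f : G →* H) :
    Prop :=
  ∀ (K : Type u) [Group K] [TopologicalSpace K] [IsTopologicalGroup K] [T2Space K]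
    (g₁ g₂ : H →* K), Continuous g₁ → Continuous g₂ → g₁.comp f = g₂.comp f → g₁ = g₂

theorem not_isTopEpi {G : Type*} {H : Type u} [Group G] [Group H] [TopologicalSpace H]
    [IsTopologicalGroup H] [T2Space H] (f : G →* H) (O : ℕ → Set H) (hO : ∀ n, O n ∈ 𝓝 (1 : H))
    (L : Subgroup H) (hL : ∀ g, f g ∈ L) (v : modV O) (hv : ∀ l ∈ L, l • v = v) {c : H}
    (hc : c • v ≠ v) : ¬ IsTopEpi f := by
  intro hepi
  have := modV.continuousSMul O hO
  have h1 := hepi (SD (modV O) H) SD.incl (SD.twist v) SD.continuous_incl (SD.continuous_twist v)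
    (by
      ext g
      refine SD.ext' ?_ rfl
      change (0 : modV O) = v - f g • v
      rw [hv _ (hL g), sub_self])
  have h2 := congrArg SD.v (DFunLike.congr_fun h1 c)
  change (0 : modV O) = v - c • v at h2
  exact hc (sub_eq_zero.1 h2.symm).symm

end Pool.Agent.Lib.MP_862e0f_al
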