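import Pool.Agent.Lib.MP_862e0f_al.Mg.G007
import Pool.Agent.Lib.MP_862e0f_al.TopModule

/-!
# Lipschitz estimates in locally convex Lie groups
-/

set_option autoImplicit false
set_option linter.unusedSectionVars false

namespace Pool.Agent.Lib.MP_862e0f_al

open Filter Topology Set

universe u v w x

section seminorms

variable {E : Type u} [AddCommGroup E] [Module ℝ E] [TopologicalSpace E]
  [IsTopologicalAddGroup E] [ContinuousSMul ℝ E] [LocallyConvexSpace ℝ E]

theorem exists_seminorm {N : Set E} (hN : N ∈ 𝓝 (0 : E)) :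
    ∃ q : Seminorm ℝ E, Continuous q ∧ ∀ x, q x < 1 → x ∈ N := by
  obtain ⟨s, hs, hsN⟩ := (nhds_hasBasis_absConvex_open ℝ E).mem_iff.1 hN
  refine ⟨gaugeSeminormFamily ℝ E ⟨s, hs⟩, with_gaugeSeminormFamily.continuous_seminorm _, ?_⟩
  intro x hx
  apply hsN
  have h1 : x ∈ (gaugeSeminormFamily ℝ E ⟨s, hs⟩).ball 0 1 := by
    rw [Seminorm.mem_ball, sub_zero]
    exact hx
  rw [gaugeSeminormFamily_ball] at h1
  exact h1

theorem exists_seminorm_at {x₀ : E} {N : Set E} (hN : N ∈ 𝓝 x₀) :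
    ∃ q : Seminorm ℝ E, Continuous q ∧ ∀ x, q (x - x₀) < 1 → x ∈ N := by
  have h1 : {y | x₀ + y ∈ N} ∈ 𝓝 (0 : E) := by
    have hc : Continuous (fun y : E => x₀ + y) := by fun_prop
    have h2 := hc.tendsto 0
    rw [add_zero] at h2
    exact h2 hN
  obtain ⟨q, hq, h⟩ := exists_seminorm h1
  refine ⟨q, hq, fun x hx => ?_⟩
  have := h _ hx
  simpa using this

theorem seminorm_nhds (q : Seminorm ℝ E) (hq : Continuous q) (x₀ : E) {r : ℝ} (hr : 0 < r) :
    {x | q (x - x₀) < r} ∈ 𝓝 x₀ := by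
  have hc : Continuous (fun x : E => q (x - x₀)) := hq.comp (by fun_prop)
  have h1 := hc.tendsto x₀
  rw [sub_self, map_zero] at h1
  exact h1.eventually (gt_mem_nhds hr)

end seminorms

section lipschitz

variable {E : Type u} {F : Type v} [AddCommGroup E] [Module ℝ E] [TopologicalSpace E]
  [IsTopologicalAddGroup E] [ContinuousSMul ℝ E] [LocallyConvexSpace ℝ E] [AddCommGroup F]
  [Module ℝ F] [TopologicalSpace F] [IsTopologicalAddGroup F] [ContinuousSMul ℝ F]
  [LocallyConvexSpace ℝ F] [T2Space F]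

/-- `C^1` maps are locally Lipschitz with respect to seminorms -/
theorem C1.lip {f : E → F} {df : E × E → F} {U : Set E} (h : C1 f df U) (hU : IsOpen U) {x₀ : E}
    (hx : x₀ ∈ U) (p : Seminorm ℝ F) (hp : Continuous p) :
    ∃ q : Seminorm ℝ E, Continuous q ∧ (∀ z, q (z - x₀) < 1 → z ∈ U) ∧
      ∀ z z', q (z - x₀) < 1 → q (z' - x₀) < 1 → p (f z - f z') ≤ q (z - z') := by
  have hdf : ContinuousAt df (x₀, 0) :=
    h.cont.continuousAt ((hU.prod isOpen_univ).mem_nhds ⟨hx, mem_univ _⟩)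
  have h1 : ∀ᶠ z : E × E in 𝓝 (x₀, 0), z.1 ∈ U ∧ p (df z) < 1 := by
    refine ((continuous_fst.tendsto (x₀, (0 : E))).eventually (hU.mem_nhds hx)).and ?_
    have h2 : ContinuousAt (fun z => p (df z)) (x₀, 0) := hp.continuousAt.comp hdf
    have h3 : p (df (x₀, 0)) < 1 := by rw [h.zero hx, map_zero]; exact one_pos
    exact h2.eventually (gt_mem_nhds h3)
  rw [nhds_prod_eq] at h1
  obtain ⟨pa, ha, pb, hb, hab⟩ := Filter.eventually_prod_iff.mp h1
  obtain ⟨q₁, hq₁, h2⟩ := exists_seminorm_at ha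
  obtain ⟨q₂, hq₂, h3⟩ := exists_seminorm hb
  -- bound of the derivative
  have hbound : ∀ y v, q₁ (y - x₀) < 1 → p (df (y, v)) ≤ q₂ v := by
    intro y v hy
    refine le_of_forall_pos_le_add fun δ hδ => ?_
    have hpos : 0 < q₂ v + δ := by
      have := apply_nonneg q₂ v
      linarith
    have hyU : y ∈ U := (hab (h2 y hy) (h3 0 (by rw [map_zero]; exact one_pos))).1
    have h4 : q₂ ((q₂ v + δ)⁻¹ • v) < 1 := by
      rw [map_smul_eq_mul, Real.norm_eq_abs, abs_of_pos (inv_pos.2 hpos), inv_mul_lt_iff₀ hpos]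
      linarith
    have h5 := (hab (h2 y hy) (h3 _ h4)).2
    rw [h.smul hyU, map_smul_eq_mul, Real.norm_eq_abs, abs_of_pos (inv_pos.2 hpos),
      inv_mul_lt_iff₀ hpos, mul_one] at h5
    exact h5.le
  have hU₁ : ∀ y, q₁ (y - x₀) < 1 → y ∈ U := fun y hy =>
    (hab (h2 y hy) (h3 0 (by rw [map_zero]; exact one_pos))).1
  -- the seminorm
  set q : Seminorm ℝ E := (3 : NNReal) • (q₁ + q₂) with hqdef
  have hqv : ∀ y, q y = 3 * (q₁ y + q₂ y) := fun y => rfl
  have hq : Continuous q := by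
    have : (q : E → ℝ) = fun y => 3 * (q₁ y + q₂ y) := funext hqv
    rw [this]
    exact continuous_const.mul (hq₁.add hq₂)
  refine ⟨q, hq, ?_, ?_⟩
  · intro z hz
    rw [hqv] at hz
    exact hU₁ z (by linarith [apply_nonneg q₁ (z - x₀), apply_nonneg q₂ (z - x₀)])
  · intro z z' hz hz'
    rw [hqv] at hz hz'
    have n1 := apply_nonneg q₁ (z - x₀)
    have n2 := apply_nonneg q₂ (z - x₀)
    have n3 := apply_nonneg q₁ (z' - x₀)
    have n4 := apply_nonneg q₂ (z' - x₀)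
    have hseg : ∀ s : ℝ, |s| ≤ |(1 : ℝ)| → q₁ (z' + s • (z - z') - x₀) < 1 := by
      intro s hs
      rw [abs_one] at hs
      have e1 : z' + s • (z - z') - x₀ = (z' - x₀) + s • ((z - x₀) - (z' - x₀)) := by
        rw [sub_sub_sub_cancel_right]; abel
      rw [e1]
      have a1 := map_add_le_add q₁ (z' - x₀) (s • ((z - x₀) - (z' - x₀)))
      have a2 : q₁ (s • ((z - x₀) - (z' - x₀))) = |s| * q₁ ((z - x₀) - (z' - x₀)) := by
        rw [map_smul_eq_mul, Real.norm_eq_abs]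
      have a3 := map_sub_le_add q₁ (z - x₀) (z' - x₀)
      have a4 := apply_nonneg q₁ ((z - x₀) - (z' - x₀))
      have a5 : |s| * q₁ ((z - x₀) - (z' - x₀)) ≤ q₁ ((z - x₀) - (z' - x₀)) := by
        nlinarith [abs_nonneg s]
      linarith
    have h6 := mean_value_mem (f := f) (df := fun y => df (y, z - z')) (a := z') (b := z - z')
      (t := 1) one_ne_zero (fun s hs => h.deriv _ (hU₁ _ (hseg s hs)) _)
      (C := {w | p w ≤ q₂ (z - z')}) (by
        have := p.convex_closedBall 0 (q₂ (z - z'))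
        simpa [Seminorm.closedBall] using this)
      (isClosed_le hp continuous_const) (fun s hs => hbound _ _ (hseg s hs))
    simp only [inv_one, one_smul, add_sub_cancel, mem_setOf_eq] at h6
    rw [hqv]
    linarith [apply_nonneg q₁ (z - z'), apply_nonneg q₂ (z - z')]

end lipschitz

section group

variable {E : Type v} [AddCommGroup E] [Module ℝ E] [TopologicalSpace E]
  [IsTopologicalAddGroup E] [ContinuousSMul ℝ E] [LocallyConvexSpace ℝ E] [T2Space E]
  {H : Type u} [Group H] [TopologicalSpace H] [ChartedSpace E H]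

theorem IsLieGroup.isTopologicalGroup (hH : IsLieGroup E H) : IsTopologicalGroup H where
  continuous_mul := hH.continuous_mul
  continuous_inv := hH.smooth_inv.1

/-- Lipschitz estimate for the multiplication in charts -/
theorem mul_lip (hH : IsLieGroup E H) {φ₁ φ₂ ψ : OpenPartialHomeomorph H E}
    (h₁ : φ₁ ∈ atlas E H) (h₂ : φ₂ ∈ atlas E H) (h₃ : ψ ∈ atlas E H) {a b : H}
    (ha : a ∈ φ₁.source) (hb : b ∈ φ₂.source) (hab : a * b ∈ ψ.source) (p : Seminorm ℝ E)
    (hp : Continuous p) :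
    ∃ q : Seminorm ℝ E, Continuous q ∧ ∀ x y x' y' : H, x ∈ φ₁.source → y ∈ φ₂.source →
      x' ∈ φ₁.source → y' ∈ φ₂.source → q (φ₁ x - φ₁ a) < 1 → q (φ₂ y - φ₂ b) < 1 →
      q (φ₁ x' - φ₁ a) < 1 → q (φ₂ y' - φ₂ b) < 1 →
      x * y ∈ ψ.source ∧ p (ψ (x * y) - ψ (x' * y')) ≤ q (φ₁ x - φ₁ x') + q (φ₂ y - φ₂ y') := by
  obtain ⟨dM, hM⟩ := (hH.smooth_mul φ₁ h₁ φ₂ h₂ ψ h₃).c1
  have hopen : IsOpen (muld φ₁ φ₂ ψ) := muld_open hH
  have hmem : (φ₁ a, φ₂ b) ∈ muld φ₁ φ₂ ψ := by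
    refine ⟨⟨φ₁.map_source ha, φ₂.map_source hb⟩, ?_⟩
    simp only [φ₁.left_inv ha, φ₂.left_inv hb]
    exact hab
  obtain ⟨q, hq, hqU, hlip⟩ := C1.lip hM hopen hmem p hp
  set q' : Seminorm ℝ E := (2 : NNReal) • (q.comp (LinearMap.inl ℝ E E) +
    q.comp (LinearMap.inr ℝ E E)) with hq'
  have hq'v : ∀ v, q' v = 2 * (q (v, 0) + q (0, v)) := fun v => rfl
  have hq'c : Continuous q' := by
    have : (q' : E → ℝ) = fun v => 2 * (q (v, 0) + q (0, v)) := funext hq'v
    rw [this]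
    exact continuous_const.mul ((hq.comp (by fun_prop)).add (hq.comp (by fun_prop)))
  have hpair : ∀ v w : E, q (v, w) ≤ q (v, 0) + q (0, w) := by
    intro v w
    have := map_add_le_add q (v, 0) (0, w)
    simpa using this
  have hle : ∀ v w : E, q' v < 1 → q' w < 1 → q (v, w) < 1 := by
    intro v w hv hw
    rw [hq'v] at hv hw
    have := hpair v w
    have := apply_nonneg q ((0 : E), v)
    have := apply_nonneg q (w, (0 : E))
    linarith
  refine ⟨q', hq'c, ?_⟩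
  intro x y x' y' hx hy hx' hy' hxa hyb hxa' hyb'
  have k1 := hle _ _ hxa hyb
  have k2 := hle _ _ hxa' hyb'
  have m1 : (φ₁ x, φ₂ y) ∈ muld φ₁ φ₂ ψ := hqU _ (by simpa using k1)
  have k3 := hlip (φ₁ x, φ₂ y) (φ₁ x', φ₂ y') (by simpa using k1) (by simpa using k2)
  constructor
  · have := m1.2
    simp only [φ₁.left_inv hx, φ₂.left_inv hy] at this
    exact this
  · simp only [φ₁.left_inv hx, φ₂.left_inv hy, φ₁.left_inv hx', φ₂.left_inv hy'] at k3
    refine k3.trans ?_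
    rw [Prod.mk_sub_mk]
    refine (hpair _ _).trans ?_
    rw [hq'v, hq'v]
    linarith [apply_nonneg q ((0 : E), φ₁ x - φ₁ x'), apply_nonneg q (φ₂ y - φ₂ y', (0 : E)),
      apply_nonneg q (φ₁ x - φ₁ x', (0 : E)), apply_nonneg q ((0 : E), φ₂ y - φ₂ y')]

end group

end Pool.Agent.Lib.MP_862e0f_al
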