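import Pool.Agent.Lib.MP_862e0f_al.TopLip

/-!
# Epimorphisms onto locally μ-convex Lie groups

If `H` is a locally μ-convex Lie group and `f : G → H` is an epimorphism in the category of
Hausdorff topological groups, then `f` has dense range.
-/

set_option autoImplicit false
set_option linter.unusedSectionVars false

namespace Pool.Agent.Lib.MP_862e0f_al

open Filter Topology Set

universe u v w x

section group

variable {E : Type v} [AddCommGroup E] [Module ℝ E] [TopologicalSpace E]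
  [IsTopologicalAddGroup E] [ContinuousSMul ℝ E] [LocallyConvexSpace ℝ E] [T2Space E]
  {H : Type u} [Group H] [TopologicalSpace H] [ChartedSpace E H]

/-- the size of `x` with respect to the seminorm `q` in the chart `φ` -/
noncomputable def siz (φ : OpenPartialHomeomorph H E) (q : Seminorm ℝ E) (x : H) : ℝ :=
  q (φ x - φ 1)

theorem siz_nonneg (φ : OpenPartialHomeomorph H E) (q : Seminorm ℝ E) (x : H) : 0 ≤ siz φ q x :=
  apply_nonneg q _

theorem siz_nhds {φ : OpenPartialHomeomorph H E} (h1 : (1 : H) ∈ φ.source) {q : Seminorm ℝ E}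
    (hq : Continuous q) {r : ℝ} (hr : 0 < r) :
    ∀ᶠ x in 𝓝 (1 : H), x ∈ φ.source ∧ siz φ q x < r := by
  have h2 : ContinuousAt φ 1 := φ.continuousAt h1
  exact Filter.inter_mem (φ.open_source.mem_nhds h1)
    (h2.preimage_mem_nhds (seminorm_nhds q hq (φ 1) hr))

/-- the conjugation estimate -/
theorem conj_lip (hH : IsLieGroup E H) {φ : OpenPartialHomeomorph H E} (hφ : φ ∈ atlas E H)
    (h1 : (1 : H) ∈ φ.source) (p : Seminorm ℝ E) (hp : Continuous p) :
    ∃ q : Seminorm ℝ E, Continuous q ∧ ∃ O ∈ 𝓝 (1 : H), ∀ o ∈ O, ∀ u ∈ φ.source, siz φ q u < 1 →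
      o⁻¹ * u * o ∈ φ.source ∧ siz φ p (o⁻¹ * u * o) ≤ siz φ q u := by
  have hT := hH.isTopologicalGroup
  obtain ⟨qA, hqA, hA⟩ := mul_lip hH hφ hφ hφ h1 h1 (by rwa [mul_one]) p hp
  obtain ⟨qB, hqB, hB⟩ := mul_lip hH hφ hφ hφ h1 h1 (by rwa [mul_one]) qA hqA
  set q : Seminorm ℝ E := (2 : NNReal) • qB with hqdef
  have hqv : ∀ y, q y = 2 * qB y := fun y => rfl
  have hqc : Continuous q := by
    have : (q : E → ℝ) = fun y => 2 * qB y := funext hqv
    rw [this]
    exact continuous_const.mul hqB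
  refine ⟨q, hqc, _, ((siz_nhds h1 hqB one_pos).and ((siz_nhds h1 hqA (half_pos one_pos)).and
    ((continuous_inv.tendsto' (1 : H) 1 inv_one).eventually (siz_nhds h1 hqA one_pos)))), ?_⟩
  rintro o ⟨⟨ho, hoB⟩, ⟨-, hoA⟩, ho', hoA'⟩ u hu hlt
  unfold siz at hoB hoA hoA' hlt ⊢
  rw [hqv] at hlt
  have z1 : ∀ r : Seminorm ℝ E, r (φ 1 - φ 1) < 1 := fun r => by
    rw [sub_self, map_zero]; exact one_pos
  obtain ⟨b1, b2⟩ := hB u o 1 o hu ho h1 ho (by linarith [apply_nonneg qB (φ u - φ 1)]) hoB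
    (z1 _) hoB
  rw [one_mul, sub_self, map_zero, add_zero] at b2
  have b3 : qA (φ (u * o) - φ 1) < 1 := by
    have e1 : φ (u * o) - φ 1 = (φ (u * o) - φ o) + (φ o - φ 1) := by abel
    rw [e1]
    have := map_add_le_add qA (φ (u * o) - φ o) (φ o - φ 1)
    linarith
  obtain ⟨a1, a2⟩ := hA o⁻¹ (u * o) o⁻¹ o ho' b1 ho' ho hoA' b3 hoA' (by linarith)
  rw [← mul_assoc] at a1 a2
  rw [inv_mul_cancel, sub_self, map_zero, zero_add] at a2
  refine ⟨a1, ?_⟩
  rw [hqv]
  linarith [apply_nonneg qB (φ u - φ 1)]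

/-- local μ-convexity in the chart `φ` -/
def LocMu (φ : OpenPartialHomeomorph H E) : Prop :=
  ∀ p : Seminorm ℝ E, Continuous p → ∃ q : Seminorm ℝ E, Continuous q ∧
    ∀ l : List H, (∀ x ∈ l, x ∈ φ.source) → (l.map fun x => q (φ x - φ 1)).sum < 1 →
      l.prod ∈ φ.source ∧ p (φ l.prod - φ 1) ≤ (l.map fun x => q (φ x - φ 1)).sum

/-- the chain length, cut off at `1` -/
noncomputable def chain (φ : OpenPartialHomeomorph H E) (q : Seminorm ℝ E) (s : H) : ℝ :=
  sInf (insert 1 {r | ∃ l : List H, (∀ x ∈ l, x ∈ φ.source) ∧ l.prod = s ∧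
    (l.map fun x => q (φ x - φ 1)).sum = r})

variable {φ : OpenPartialHomeomorph H E} {q : Seminorm ℝ E}

theorem list_nonneg (l : List H) : 0 ≤ (l.map fun x => q (φ x - φ 1)).sum := by
  apply List.sum_nonneg
  intro r hr
  obtain ⟨x, -, rfl⟩ := List.mem_map.1 hr
  exact apply_nonneg q _

theorem chain_lower {s : H} : 0 ∈ lowerBounds (insert 1 {r | ∃ l : List H,
    (∀ x ∈ l, x ∈ φ.source) ∧ l.prod = s ∧ (l.map fun x => q (φ x - φ 1)).sum = r}) := by
  rintro r (rfl | ⟨l, -, -, rfl⟩)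
  · exact zero_le_one
  · exact list_nonneg l

theorem chain_nonneg (s : H) : 0 ≤ chain φ q s :=
  le_csInf ⟨1, mem_insert _ _⟩ fun _ hr => chain_lower hr

theorem chain_le_one (s : H) : chain φ q s ≤ 1 :=
  csInf_le ⟨0, chain_lower⟩ (mem_insert _ _)

theorem chain_le (l : List H) (hl : ∀ x ∈ l, x ∈ φ.source) :
    chain φ q l.prod ≤ (l.map fun x => q (φ x - φ 1)).sum :=
  csInf_le ⟨0, chain_lower⟩ (mem_insert_of_mem _ ⟨l, hl, rfl, rfl⟩)

theorem chain_one : chain φ q 1 = 0 := by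
  apply le_antisymm _ (chain_nonneg 1)
  have := chain_le (φ := φ) (q := q) [] (by simp)
  simpa using this

theorem chain_mul (s u : H) (hu : u ∈ φ.source) :
    chain φ q (s * u) ≤ chain φ q s + siz φ q u := by
  rw [← sub_le_iff_le_add]
  refine le_csInf ⟨1, mem_insert _ _⟩ ?_
  rintro r (rfl | ⟨l, hl, rfl, rfl⟩)
  · linarith [chain_le_one (φ := φ) (q := q) (s * u), siz_nonneg φ q u]
  · have h1 := chain_le (φ := φ) (q := q) (l ++ [u]) (by
      intro x hx
      rcases List.mem_append.1 hx with hx | hx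
      · exact hl x hx
      · rw [List.mem_singleton.1 hx]; exact hu)
    rw [List.prod_append, List.prod_singleton, List.map_append, List.sum_append,
      List.map_singleton, List.sum_singleton] at h1
    unfold siz
    linarith

theorem chain_lt {s : H} (hs : chain φ q s < 1) :
    ∃ l : List H, (∀ x ∈ l, x ∈ φ.source) ∧ l.prod = s ∧
      (l.map fun x => q (φ x - φ 1)).sum < 1 := by
  obtain ⟨r, hr, hlt⟩ := exists_lt_of_csInf_lt ⟨1, mem_insert _ _⟩ hs
  rcases hr with rfl | ⟨l, h1, h2, h3⟩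
  · exact absurd hlt (lt_irrefl _)
  · exact ⟨l, h1, h2, h3 ▸ hlt⟩

/-- the main construction -/
theorem exists_module [IsTopologicalGroup H] (hH : IsLieGroup E H) (hφ : φ ∈ atlas E H)
    (h1 : (1 : H) ∈ φ.source)
    (hmu : LocMu φ) (L : Subgroup H) (hL : IsClosed (L : Set H)) {c : H} (hc : c ∉ L) :
    ∃ O : ℕ → Set H, (∀ n, O n ∈ 𝓝 (1 : H)) ∧ ∃ f : modV O, (∀ l ∈ L, l • f = f) ∧ c⁻¹ • f ≠ f := by
  -- a neighbourhood which does not meet `L c`
  have hN : {x : H | x * c⁻¹ ∉ L} ∈ 𝓝 (1 : H) := by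
    have ho : IsOpen {x : H | x * c⁻¹ ∉ L} := by
      have : IsClosed {x : H | x * c⁻¹ ∈ L} := hL.preimage (continuous_mul_const c⁻¹)
      exact this.isOpen_compl
    refine ho.mem_nhds ?_
    change 1 * c⁻¹ ∉ L
    rw [one_mul]
    exact fun h => hc ((inv_mem_iff).1 h)
  have hN' : {y : E | y ∈ φ.target ∧ φ.symm y * c⁻¹ ∉ L} ∈ 𝓝 (φ 1) := by
    have h2 : ContinuousAt φ.symm (φ 1) := φ.continuousAt_symm (φ.map_source h1)
    refine Filter.inter_mem (φ.open_target.mem_nhds (φ.map_source h1)) ?_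
    have h3 : {x : H | x * c⁻¹ ∉ L} ∈ 𝓝 (φ.symm (φ 1)) := by
      rw [φ.left_inv h1]
      exact hN
    exact h2.preimage_mem_nhds h3
  obtain ⟨p, hp, hpN⟩ := exists_seminorm_at hN'
  obtain ⟨q, hq, hmuq⟩ := hmu p hp
  -- the sequence
  choose! nq hnq nO hnO hconj using
    fun (r : Seminorm ℝ E) (hr : Continuous r) => conj_lip hH hφ h1 r hr
  let Q : ℕ → Seminorm ℝ E := fun n => Nat.rec q (fun _ r => nq r) n
  have hQ0 : Q 0 = q := rfl
  have hQs : ∀ n, Q (n + 1) = nq (Q n) := fun n => rfl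
  have hQc : ∀ n, Continuous (Q n) := by
    intro n
    induction n with
    | zero => exact hq
    | succ n ih => rw [hQs]; exact hnq _ ih
  let O : ℕ → Set H := fun n => nO (Q n)
  have hO : ∀ n, O n ∈ 𝓝 (1 : H) := fun n => hnO _ (hQc n)
  have key : ∀ n, ∀ b ∈ prodNhds O n, ∀ u ∈ φ.source, siz φ (Q n) u < 1 →
      b⁻¹ * u * b ∈ φ.source ∧ siz φ q (b⁻¹ * u * b) ≤ siz φ (Q n) u := by
    intro n
    induction n with
    | zero =>
      intro b hb u hu _
      have hb' : b = 1 := hb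
      rw [hb', inv_one, one_mul, mul_one]
      exact ⟨hu, le_rfl⟩
    | succ n ih =>
      rintro _ ⟨o, ho, b, hb, rfl⟩ u hu hlt
      obtain ⟨k1, k2⟩ := hconj (Q n) (hQc n) o ho u hu hlt
      obtain ⟨k3, k4⟩ := ih b hb _ k1 (lt_of_le_of_lt k2 hlt)
      have e1 : (o * b)⁻¹ * u * (o * b) = b⁻¹ * (o⁻¹ * u * o) * b := by group
      change (o * b)⁻¹ * u * (o * b) ∈ φ.source ∧ siz φ q ((o * b)⁻¹ * u * (o * b)) ≤ _
      rw [e1]
      exact ⟨k3, k4.trans k2⟩
  refine ⟨O, hO, exists_invariant O L c (chain φ q) chain_nonneg chain_le_one chain_one ?_ ?_⟩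
  · intro l hl
    apply le_antisymm (chain_le_one _)
    by_contra hlt
    push Not at hlt
    obtain ⟨m, hm1, hm2, hm3⟩ := chain_lt hlt
    obtain ⟨a1, a2⟩ := hmuq m hm1 hm3
    rw [hm2] at a1 a2
    obtain ⟨a3, a4⟩ := hpN (φ (l * c)) (lt_of_le_of_lt a2 hm3)
    rw [φ.left_inv a1, mul_inv_cancel_right] at a4
    exact a4 hl
  · intro n ε hε
    have hm : 0 < min 1 ε := lt_min one_pos hε
    filter_upwards [siz_nhds h1 (hQc n) hm,
      (continuous_inv.tendsto' (1 : H) 1 inv_one).eventually (siz_nhds h1 (hQc n) hm)]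
      with g hg hg' b hb s _
    obtain ⟨a1, a2⟩ := key n b hb g hg.1 (hg.2.trans_le (min_le_left _ _))
    obtain ⟨a3, a4⟩ := key n b hb g⁻¹ hg'.1 (hg'.2.trans_le (min_le_left _ _))
    have a5 := chain_mul (φ := φ) (q := q) s (b⁻¹ * g * b) a1
    have a6 := chain_mul (φ := φ) (q := q) (s * (b⁻¹ * g * b)) (b⁻¹ * g⁻¹ * b) a3
    rw [show s * (b⁻¹ * g * b) * (b⁻¹ * g⁻¹ * b) = s by group] at a6
    have a7 := hg.2.trans_le (min_le_right _ _)
    have a8 := hg'.2.trans_le (min_le_right _ _)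
    rw [abs_le]
    constructor <;> linarith

end group

/-- A locally convex Lie group `H` is locally μ-convex: for a chart `φ` at `1` and every
continuous seminorm `p` on the model space there is a continuous seminorm `q` such that for all
`x₁, …, xₙ` in the domain of `φ` with `∑ q (φ xᵢ - φ 1) < 1` the product `x₁ ⋯ xₙ` is in the
domain of `φ` and `p (φ (x₁ ⋯ xₙ) - φ 1) ≤ ∑ q (φ xᵢ - φ 1)`. -/
def LieGrp.IsLocallyMuConvex (H : LieGrp.{u, v}) : Prop :=
  ∃ φ ∈ atlas H.model H.carrier, (1 : H.carrier) ∈ φ.source ∧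
    ∀ p : Seminorm ℝ H.model, Continuous p → ∃ q : Seminorm ℝ H.model, Continuous q ∧
      ∀ l : List H.carrier, (∀ x ∈ l, x ∈ φ.source) → (l.map fun x => q (φ x - φ 1)).sum < 1 →
        l.prod ∈ φ.source ∧ p (φ l.prod - φ 1) ≤ (l.map fun x => q (φ x - φ 1)).sum

theorem denseRange_of_isTopEpi {G : Type*} [Group G] (H : LieGrp.{u, v})
    (hH : H.IsLocallyMuConvex) (f : G →* H.carrier) (hf : IsTopEpi f) : DenseRange f := by
  have hT : IsTopologicalGroup H.carrier := H.lie.isTopologicalGroup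
  obtain ⟨φ, hφ, h1, hmu⟩ := hH
  by_contra hd
  set L : Subgroup H.carrier := f.range.topologicalClosure with hLdef
  have hL : IsClosed (L : Set H.carrier) := f.range.isClosed_topologicalClosure
  have hne : ∃ c, c ∉ L := by
    by_contra hall
    push Not at hall
    apply hd
    intro x
    have := hall x
    rw [hLdef, ← SetLike.mem_coe, Subgroup.topologicalClosure_coe, MonoidHom.coe_range] at this
    exact this
  obtain ⟨c, hc⟩ := hne
  obtain ⟨O, hO, v, hv, hcv⟩ := exists_module H.lie hφ h1 hmu L hL hc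
  exact not_isTopEpi f O hO L (fun g => f.range.le_topologicalClosure ⟨g, rfl⟩) v hv hcv hf

end Pool.Agent.Lib.MP_862e0f_al
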